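import Mathlib
import Pool.Agent.helper54.AB.Arith2

/-! [AB2-6] Refined counting in the tree of components. -/

set_option linter.unusedSectionVars false

namespace Pool.Agent.helper54.AB

open Finset

namespace Arr

variable {Q : Type} [Fintype Q] [DecidableEq Q] (A : Arr Q)

/-- the excess -/
def ex (K : Q) : ℕ := 2 * A.m K - 5 * A.dg K

/-- the long sides of `K` -/
def lg (K : Q) : Finset Q := (A.nb K).filter (fun L => 6 ≤ A.tau K L)

/-- the defect of `K` (in units of `1 / 70`) -/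
def df (K : Q) : ℕ := max (2 * A.ex K) (max (7 * (A.lg K).card) (if A.ex K = 0 then 0 else 14))

/-- the total defect of the nontree components -/
def Df : ℕ := ∑ K ∈ A.NT, A.df K

/-- the leaves -/
def L1 : Finset Q := A.NT.filter (fun K => A.s K = 1)

instance (K : Q) : Decidable (∀ R ∈ A.nb K, A.dg R = 1 → A.m R = 0) := inferInstance

/-- the good leaves -/
def LgR : Finset Q := A.L1.filter (fun K => (∀ R ∈ A.nb K, A.dg R = 1 → A.m R = 0) ∧
  ∀ L ∈ A.nb K, 2 ≤ A.dg L → A.tau L K < 3 * A.dg K)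

/-- the number of leaves among the long sides of `K` -/
def lq (K : Q) : ℕ := ((A.lg K).filter (fun L => L ∈ A.L1)).card

/-- the cost of a nontree component -/
def cost (K : Q) : ℕ :=
  if 3 ≤ A.s K then 4 * A.lq K
  else if A.s K = 2 then 5 * A.lq K + (if A.ex K = 0 then 0 else 3)
  else if A.ex K = 0 then 0 else 1

/-- Proof: all `tau K L`, `L ∈ nb K`, are at least `5` and their sum is `2 m K = 5 dg K`. -/
theorem tau_eq_five {K : Q} (hK : 2 ≤ A.dg K) (h : A.ex K = 0) {L : Q} (hL : L ∈ A.nb K) :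
    A.tau K L = 5 := by
  have h1 : 5 * A.dg K ≤ 2 * A.m K := A.exc K hK
  have h2 : 2 * A.m K = 5 * A.dg K := by unfold ex at h; omega
  have h3 : ∑ M ∈ A.nb K, A.tau K M = 2 * A.m K := by
    rw [← A.tau_sum K]
    exact sum_subset (subset_univ _) fun M _ hM => A.tau_nb K M hM
  have h4 : ∑ M ∈ A.nb K, 5 = 5 * A.dg K := by
    rw [sum_const, smul_eq_mul, mul_comm]
    rfl
  have h5 : ∀ M ∈ A.nb K, 5 ≤ A.tau K M := A.tau_five K hK
  have h6 : ∑ M ∈ A.nb K, 5 = ∑ M ∈ A.nb K, A.tau K M := by rw [h4, h3, h2]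
  exact ((sum_eq_sum_iff_of_le h5).1 h6 L hL).symm

theorem lg_empty {K : Q} (hK : 2 ≤ A.dg K) (h : A.ex K = 0) : A.lg K = ∅ := by
  rw [lg, filter_eq_empty_iff]
  intro L hL
  have := A.tau_eq_five hK h hL
  omega

/-- a nonempty set of nontree components which is closed under nontree neighbours contains all
nontree components -/
private theorem closed_sub {S : Finset Q} (hS : S ⊆ A.NT) (hne : S.Nonempty)
    (h : ∀ K ∈ S, A.ntn K ⊆ S) : A.NT ⊆ S := by
  obtain ⟨K₀, hK₀⟩ := hne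
  have hall := A.conn (fun M => M ∈ S ∨ (¬ 2 ≤ A.dg M ∧ ∃ K ∈ S, M ∈ A.nb K)) (by
    rintro M L hL (hM | ⟨hM, K, hK, hMK⟩)
    · by_cases h2 : 2 ≤ A.dg L
      · exact Or.inl (h M hM (A.mem_ntn.2 ⟨hL, h2⟩))
      · exact Or.inr ⟨h2, M, hM, hL⟩
    · have h1 : A.dg M = 1 := by
        have : 1 ≤ A.dg M := A.deg_pos M
        omega
      obtain ⟨K', _, hK'⟩ := A.tree_nb ⟨K, hS hK⟩ h1
      have h2 : K ∈ A.nb M := A.symm _ _ hMK
      rw [hK', mem_singleton] at h2 hL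
      rw [hL, ← h2]
      exact Or.inl hK) K₀ (Or.inl hK₀)
  intro L hL
  rcases hall L with h1 | ⟨h1, _⟩
  · exact h1
  · exact absurd (A.mem_NT.1 hL) h1

private theorem mem_L1 {K : Q} : K ∈ A.L1 ↔ K ∈ A.NT ∧ A.s K = 1 := by
  rw [L1, mem_filter]

private theorem ntn_symm {K L : Q} (hK : K ∈ A.NT) (hL : L ∈ A.ntn K) : K ∈ A.ntn L :=
  A.mem_ntn.2 ⟨A.symm _ _ (A.mem_ntn.1 hL).1, A.mem_NT.1 hK⟩

private theorem ntn_NT {K L : Q} (hL : L ∈ A.ntn K) : L ∈ A.NT := A.mem_NT.2 (A.mem_ntn.1 hL).2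

/-- the nontree neighbours of a leaf -/
private theorem ntn_leaf {K L : Q} (hK : K ∈ A.NT) (hL : L ∈ A.ntn K) (h : L ∈ A.L1) :
    A.ntn L = {K} := by
  obtain ⟨M, hM⟩ := card_eq_one.1 (A.mem_L1.1 h).2
  have h1 := A.ntn_symm hK hL
  rw [hM, mem_singleton] at h1
  rw [hM, h1]

private theorem lam_one (hN : 3 ≤ A.NT.card) {K : Q} (hK : K ∈ A.NT) (h : A.s K = 1) :
    ∀ L ∈ A.ntn K, L ∉ A.L1 := by
  intro L hL hL1
  have h1 := A.ntn_leaf hK hL hL1
  have h2 : A.ntn K = {L} := A.ntn_leaf (A.ntn_NT hL) (A.ntn_symm hK hL) (A.mem_L1.2 ⟨hK, h⟩)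
  have h3 : A.NT ⊆ {K, L} := by
    refine A.closed_sub ?_ ⟨K, by simp⟩ ?_
    · intro M hM
      rw [mem_insert, mem_singleton] at hM
      rcases hM with rfl | rfl
      · exact hK
      · exact A.ntn_NT hL
    · intro M hM
      rw [mem_insert, mem_singleton] at hM
      rcases hM with rfl | rfl
      · rw [h2]; simp
      · rw [h1]; simp
  have h4 := (card_le_card h3).trans card_le_two
  omega

private theorem lq_sub (K : Q) : (A.lg K).filter (fun L => L ∈ A.L1) ⊆ A.ntn K := by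
  intro L hL
  rw [mem_filter, lg, mem_filter] at hL
  exact A.mem_ntn.2 ⟨hL.1.1, A.mem_NT.1 (A.mem_L1.1 hL.2).1⟩

/-- Proof: if `K` has only one nontree neighbour `L` and `L` has only the nontree neighbour `K`, then
`NT = {K, L}` (`A.conn`; tree components have only one neighbour, `tree_nb`; compare the proof of
`s_pos`). -/
theorem lq_one (hN : 3 ≤ A.NT.card) {K : Q} (hK : K ∈ A.NT) (h : A.s K = 1) : A.lq K = 0 := by
  rw [lq, card_eq_zero, eq_empty_iff_forall_notMem]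
  intro L hL
  exact A.lam_one hN hK h L (A.lq_sub K hL) (mem_filter.1 hL).2

/-- Proof: otherwise both nontree neighbours of `K` are leaves, and `K` and these two are all nontree
components. -/
theorem lq_two (hN : 4 ≤ A.NT.card) {K : Q} (hK : K ∈ A.NT) (h : A.s K = 2) : A.lq K ≤ 1 := by
  by_contra hcon
  have h1 : (A.lg K).filter (fun L => L ∈ A.L1) = A.ntn K := by
    refine eq_of_subset_of_card_le (A.lq_sub K) ?_
    have h2 : (A.ntn K).card = 2 := h
    have h3 : A.lq K = ((A.lg K).filter (fun L => L ∈ A.L1)).card := rfl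
    omega
  have h2 : A.NT ⊆ insert K (A.ntn K) := by
    refine A.closed_sub ?_ ⟨K, mem_insert_self _ _⟩ ?_
    · intro M hM
      rcases mem_insert.1 hM with rfl | hM
      · exact hK
      · exact A.ntn_NT hM
    · intro M hM
      rcases mem_insert.1 hM with rfl | hM
      · exact subset_insert _ _
      · have h3 : M ∈ A.L1 := by
          rw [← h1] at hM
          exact (mem_filter.1 hM).2
        rw [A.ntn_leaf hK hM h3, singleton_subset_iff]
        exact mem_insert_self _ _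
  have h3 := (card_le_card h2).trans (card_insert_le _ _)
  have h4 : (A.ntn K).card = 2 := h
  omega

/-- symmetry of the sums over the pairs of nontree neighbours -/
private theorem dc (F : Q → Q → ℕ) :
    ∑ K ∈ A.NT, ∑ L ∈ A.ntn K, F K L = ∑ K ∈ A.NT, ∑ L ∈ A.ntn K, F L K := by
  refine sum_comm' fun K L => ?_
  constructor
  · rintro ⟨h1, h2⟩
    exact ⟨A.ntn_symm h1 h2, A.ntn_NT h2⟩
  · rintro ⟨h1, h2⟩
    exact ⟨A.ntn_NT h1, A.ntn_symm h2 h1⟩

/-- the edges in the tree neighbours -/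
private def gg (K : Q) : ℕ := ∑ R ∈ (A.nb K).filter (fun L => ¬ 2 ≤ A.dg L), A.m R

private theorem sum_gg (hN : A.NT.Nonempty) : ∑ K ∈ A.NT, A.gg K = A.Y := by
  have h1 : ∑ K ∈ A.NT, A.gg K = ∑ R ∈ A.NTᶜ, ∑ _K ∈ A.nb R, A.m R := by
    unfold gg
    refine sum_comm' fun K R => ?_
    rw [mem_filter, mem_compl, mem_NT, mem_NT]
    constructor
    · rintro ⟨_, h2, h3⟩
      exact ⟨A.symm _ _ h2, h3⟩
    · rintro ⟨h2, h3⟩
      have h3' : A.dg R = 1 := by
        have : 1 ≤ A.dg R := A.deg_pos R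
        omega
      obtain ⟨K', hK', h⟩ := A.tree_nb hN h3'
      have h4 : K = K' := by
        rw [h] at h2
        exact mem_singleton.1 h2
      subst h4
      exact ⟨A.mem_NT.1 hK', A.symm _ _ h2, h3⟩
  rw [h1, Y]
  refine sum_congr rfl fun R hR => ?_
  rw [mem_compl, mem_NT] at hR
  have h2 : (A.nb R).card = 1 := by
    have h3 : 1 ≤ A.dg R := A.deg_pos R
    have h4 : A.dg R = (A.nb R).card := rfl
    omega
  rw [sum_const, smul_eq_mul, h2, one_mul]

private theorem gg_zero {K : Q} (h : A.gg K = 0) : ∀ R ∈ A.nb K, A.dg R = 1 → A.m R = 0 := by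
  intro R hR hR1
  rw [gg, sum_eq_zero_iff] at h
  exact h R (mem_filter.2 ⟨hR, by omega⟩)

/-- the leaves among the nontree neighbours -/
private theorem leaf_pt {K L : Q} (hK : K ∈ A.NT) (hL : L ∈ A.ntn K) (h : L ∈ A.L1) :
    1 ≤ ((if L ∈ A.LgR then 1 else 0) + A.gg L) + (if L ∈ A.lg K then 1 else 0) := by
  by_cases h1 : L ∈ A.LgR
  · rw [if_pos h1]; omega
  by_cases h2 : A.gg L = 0
  · have h3 : L ∈ A.lg K := by
      by_contra h3
      apply h1
      rw [LgR, mem_filter]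
      refine ⟨h, A.gg_zero h2, fun M hM hM2 => ?_⟩
      have h4 : M ∈ A.ntn L := A.mem_ntn.2 ⟨hM, hM2⟩
      rw [A.ntn_leaf hK hL h, mem_singleton] at h4
      subst h4
      have h5 : ¬ 6 ≤ A.tau M L := fun h5 => h3 (by
        rw [lg, mem_filter]
        exact ⟨(A.mem_ntn.1 hL).1, h5⟩)
      have h6 := (A.mem_ntn.1 hL).2
      omega
    rw [if_pos h3]
    omega
  · omega

/-- the components with two nontree neighbours outside of `G2` -/
private theorem two_pt {K : Q} (hK : K ∈ A.NT) :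
    (if A.s K = 2 ∧ K ∉ A.G2 then 1 else 0) ≤ (if A.s K = 2 ∧ A.ex K ≠ 0 then 1 else 0) + A.gg K +
      ∑ L ∈ A.ntn K, (if 3 ≤ A.s L ∧ K ∉ A.L1 then 1 else 0) +
      ∑ L ∈ A.ntn K, (if A.s L ≤ 2 ∧ A.ex L ≠ 0 then 1 else 0) := by
  split_ifs with h1 h2
  · omega
  · by_cases h3 : A.gg K = 0
    swap
    · omega
    by_contra hlt
    have h4 : ∑ L ∈ A.ntn K, (if 3 ≤ A.s L ∧ K ∉ A.L1 then 1 else 0) = 0 := by omega
    have h5 : ∑ L ∈ A.ntn K, (if A.s L ≤ 2 ∧ A.ex L ≠ 0 then 1 else 0) = 0 := by omega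
    rw [sum_eq_zero_iff] at h4 h5
    have hL1 : K ∉ A.L1 := fun h => by
      have := (A.mem_L1.1 h).2
      omega
    have h6 : ∀ L ∈ A.ntn K, A.s L ≤ 2 := by
      intro L hL
      by_contra h
      have h7 := h4 L hL
      rw [if_pos ⟨by omega, hL1⟩] at h7
      omega
    have h7 : ∀ L ∈ A.ntn K, A.ex L = 0 := by
      intro L hL
      by_contra h
      have h8 := h5 L hL
      rw [if_pos ⟨h6 L hL, h⟩] at h8
      omega
    have hex : ∀ M, 2 ≤ A.dg M → A.ex M = 0 → 2 * A.m M = 5 * A.dg M := by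
      intro M hM hM0
      have h8 : 5 * A.dg M ≤ 2 * A.m M := A.exc M hM
      unfold ex at hM0
      omega
    have hexK : A.ex K = 0 := by
      by_contra h
      exact h2 ⟨h1.1, h⟩
    apply h1.2
    rw [G2, mem_filter]
    refine ⟨hK, ⟨hex K (A.mem_NT.1 hK) hexK, A.gg_zero h3, fun L hL hL2 => ?_⟩, h1.1,
      fun L hL => ⟨h6 L hL, hex L (A.mem_ntn.1 hL).2 (h7 L hL)⟩⟩
    have hL' : L ∈ A.ntn K := A.mem_ntn.2 ⟨hL, hL2⟩
    exact A.tau_eq_five hL2 (h7 L hL') (A.symm _ _ hL)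
  · exact Nat.zero_le _
  · exact Nat.zero_le _

/-- the number of leaves among the nontree neighbours -/
private def lam (K : Q) : ℕ := ∑ L ∈ A.ntn K, (if L ∈ A.L1 then 1 else 0)

private theorem lam_le {K : Q} (hK : K ∈ A.NT) :
    A.lam K ≤ ∑ L ∈ A.ntn K, (if L ∈ A.L1 then (if L ∈ A.LgR then 1 else 0) + A.gg L else 0) +
      A.lq K := by
  have h1 : A.lam K ≤ ∑ L ∈ A.ntn K,
      ((if L ∈ A.L1 then (if L ∈ A.LgR then 1 else 0) + A.gg L else 0) +
        (if L ∈ A.lg K ∧ L ∈ A.L1 then 1 else 0)) := by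
    refine sum_le_sum fun L hL => ?_
    by_cases h : L ∈ A.L1
    · rw [if_pos h, if_pos h]
      have h2 := A.leaf_pt hK hL h
      by_cases h3 : L ∈ A.lg K
      · rw [if_pos (show L ∈ A.lg K ∧ L ∈ A.L1 from ⟨h3, h⟩)]
        omega
      · rw [if_neg h3] at h2
        omega
    · rw [if_neg h]
      omega
  rw [sum_add_distrib] at h1
  have h2 : ∑ L ∈ A.ntn K, (if L ∈ A.lg K ∧ L ∈ A.L1 then 1 else 0) ≤ A.lq K := by
    rw [← card_filter, lq]
    refine card_le_card fun L hL => ?_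
    rw [mem_filter] at hL ⊢
    exact ⟨hL.2.1, hL.2.2⟩
  omega

private theorem sum_leaf (f : Q → ℕ) :
    ∑ K ∈ A.NT, ∑ L ∈ A.ntn K, (if L ∈ A.L1 then f L else 0) =
      ∑ K ∈ A.NT, (if A.s K = 1 then f K else 0) := by
  rw [A.dc (fun _ L => if L ∈ A.L1 then f L else 0)]
  refine sum_congr rfl fun K hK => ?_
  rw [sum_const, smul_eq_mul]
  have h : (A.ntn K).card = A.s K := rfl
  by_cases h1 : A.s K = 1
  · rw [if_pos (A.mem_L1.2 ⟨hK, h1⟩), if_pos h1, h, h1, one_mul]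
  · rw [if_neg (fun h2 => h1 (A.mem_L1.1 h2).2), if_neg h1, mul_zero]

private theorem sum_bound (hN : A.NT.Nonempty) :
    ∑ K ∈ A.NT, ∑ L ∈ A.ntn K,
      (if L ∈ A.L1 then (if L ∈ A.LgR then 1 else 0) + A.gg L else 0) ≤ A.LgR.card + A.Y := by
  rw [A.sum_leaf]
  have h1 : A.LgR ⊆ A.NT := fun K hK => (A.mem_L1.1 (mem_filter.1 hK).1).1
  have h2 : ∑ K ∈ A.NT, (if K ∈ A.LgR then 1 else 0) = A.LgR.card := by
    rw [← card_filter, filter_mem_eq_inter, inter_eq_right.2 h1]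
  rw [← h2, ← A.sum_gg hN, ← sum_add_distrib]
  refine sum_le_sum fun K _ => ?_
  by_cases h3 : A.s K = 1
  · rw [if_pos h3]
  · rw [if_neg h3]; omega

/-- Proof. Let `H` be the set of the `K ∈ NT` with `s K ≥ 3`, `Σ_H (s - 2) = |L1| - 2` (private
`sum_three` in `Arith2.lean`, copy it), so `|H| ≤ |L1| - 2`. For `K ∈ NT` let `lam K` be the number
of leaves among its nontree neighbours. `Σ_{NT} lam = |L1|` (double counting, every leaf has one
nontree neighbour), and `lam K = 0` if `s K = 1` (as in `lq_one`).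
(a) Let `K ∈ NT` with `s K = 2` not be in `G2`. Then `ex K ≠ 0`, or some tree neighbour of `K` has an
edge, or some `L ∈ ntn K` has `s L ≥ 3`, or some `L ∈ ntn K` has `s L ≤ 2`, `ex L ≠ 0` (otherwise
`K ∈ G2`; the third condition of `Fine` by `tau_eq_five` for `L`). So their number is at most
`|{s = 2, ex ≠ 0}| + Y + Σ_{L ∈ H} (s L - lam L) + Σ_{s L ≤ 2, ex L ≠ 0} s L` (private `sum_tree` in
`Arith2.lean` for the tree neighbours), and
`Σ_H (s - lam) = |L1| - 2 + 2 |H| - Σ_H lam = 2 |H| - 2 + Σ_{s K = 2} lam K`.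
(b) `|L1| ≤ |LgR| + Y + Σ_{NT} lq`: a leaf not in `LgR` has a tree neighbour with an edge or a
neighbour `L ∈ NT` with `tau L K ≥ 3 dg K ≥ 6`.
(c) `Σ_{s K = 2} lam K ≤ |LgR| + Y + Σ_{s K = 2} lq K`: the same for the leaves whose nontree
neighbour `K` has `s K = 2`.
Sum: `|NT| ≤ |G2| + |L1| + |H| + (a) ≤ |G2| + 4 |L1| - 8 + Σ_{s = 2} lam + Y + 3 |{s = 2, ex ≠ 0}| +
|{s = 1, ex ≠ 0}|`; insert (b), (c) and `lq_one`. -/
theorem NT_le (hN : 4 ≤ A.NT.card) :
    A.NT.card + 8 ≤ A.G2.card + 5 * A.LgR.card + ∑ K ∈ A.NT, A.cost K + 6 * A.Y := by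
  have hne : A.NT.Nonempty := card_pos.1 (by omega)
  -- the three classes
  have c1 : A.NT.card = ∑ K ∈ A.NT, (if A.s K = 1 then 1 else 0) +
      ∑ K ∈ A.NT, (if A.s K = 2 then 1 else 0) + ∑ K ∈ A.NT, (if 3 ≤ A.s K then 1 else 0) := by
    rw [card_eq_sum_ones, ← sum_add_distrib, ← sum_add_distrib]
    refine sum_congr rfl fun K hK => ?_
    have h := A.s_pos (by omega) hK
    split_ifs <;> omega
  -- the sum of the degrees
  have c2 : ∑ K ∈ A.NT, (if 3 ≤ A.s K then A.s K else 0) + 2 =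
      ∑ K ∈ A.NT, (if A.s K = 1 then 1 else 0) + 2 * ∑ K ∈ A.NT, (if 3 ≤ A.s K then 1 else 0) := by
    have h1 := A.sum_s hne
    have h2 : ∑ K ∈ A.NT, A.s K = ∑ K ∈ A.NT, (if 3 ≤ A.s K then A.s K else 0) +
        ∑ K ∈ A.NT, (if A.s K = 1 then 1 else 0) +
        2 * ∑ K ∈ A.NT, (if A.s K = 2 then 1 else 0) := by
      rw [mul_sum, ← sum_add_distrib, ← sum_add_distrib]
      refine sum_congr rfl fun K hK => ?_
      have h := A.s_pos (by omega) hK
      split_ifs <;> omega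
    omega
  have c3 : 3 * ∑ K ∈ A.NT, (if 3 ≤ A.s K then 1 else 0) ≤
      ∑ K ∈ A.NT, (if 3 ≤ A.s K then A.s K else 0) := by
    rw [mul_sum]
    refine sum_le_sum fun K _ => ?_
    split_ifs <;> omega
  -- the components with two nontree neighbours
  have c4 : ∑ K ∈ A.NT, (if A.s K = 2 then 1 else 0) ≤
      A.G2.card + ∑ K ∈ A.NT, (if A.s K = 2 ∧ K ∉ A.G2 then 1 else 0) := by
    have h1 : A.G2 ⊆ A.NT := filter_subset _ _
    have h2 : ∑ K ∈ A.NT, (if K ∈ A.G2 then 1 else 0) = A.G2.card := by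
      rw [← card_filter, filter_mem_eq_inter, inter_eq_right.2 h1]
    rw [← h2, ← sum_add_distrib]
    refine sum_le_sum fun K _ => ?_
    by_cases h3 : A.s K = 2
    · by_cases h4 : K ∈ A.G2
      · rw [if_pos h3, if_pos h4]; omega
      · rw [if_pos h3, if_neg h4, if_pos ⟨h3, h4⟩]
    · rw [if_neg h3]; omega
  have c5 : ∑ K ∈ A.NT, (if A.s K = 2 ∧ K ∉ A.G2 then 1 else 0) ≤
      ∑ K ∈ A.NT, (if A.s K = 2 ∧ A.ex K ≠ 0 then 1 else 0) + A.Y +
      ∑ K ∈ A.NT, ∑ L ∈ A.ntn K, (if 3 ≤ A.s L ∧ K ∉ A.L1 then 1 else 0) +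
      ∑ K ∈ A.NT, ∑ L ∈ A.ntn K, (if A.s L ≤ 2 ∧ A.ex L ≠ 0 then 1 else 0) := by
    rw [← A.sum_gg hne, ← sum_add_distrib, ← sum_add_distrib, ← sum_add_distrib]
    exact sum_le_sum fun K hK => A.two_pt hK
  have c6 : ∑ K ∈ A.NT, ∑ L ∈ A.ntn K, (if 3 ≤ A.s L ∧ K ∉ A.L1 then 1 else 0) +
      ∑ K ∈ A.NT, (if 3 ≤ A.s K then A.lam K else 0) =
      ∑ K ∈ A.NT, (if 3 ≤ A.s K then A.s K else 0) := by
    rw [A.dc (fun K L => if 3 ≤ A.s L ∧ K ∉ A.L1 then 1 else 0), ← sum_add_distrib]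
    refine sum_congr rfl fun K _ => ?_
    by_cases h : 3 ≤ A.s K
    · rw [if_pos h, if_pos h, lam, ← sum_add_distrib]
      have h1 : ∀ L ∈ A.ntn K, ((if 3 ≤ A.s K ∧ L ∉ A.L1 then 1 else 0) +
          if L ∈ A.L1 then 1 else 0) = 1 := by
        intro L _
        by_cases h2 : L ∈ A.L1
        · rw [if_pos h2, if_neg (fun h3 => h3.2 h2)]
        · rw [if_neg h2, if_pos ⟨h, h2⟩]
      rw [sum_congr rfl h1, ← card_eq_sum_ones]
      rfl
    · rw [if_neg h, if_neg h, add_zero]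
      exact sum_eq_zero fun L _ => if_neg fun h1 => h h1.1
  have c7 : ∑ K ∈ A.NT, ∑ L ∈ A.ntn K, (if A.s L ≤ 2 ∧ A.ex L ≠ 0 then 1 else 0) =
      ∑ K ∈ A.NT, (if A.s K = 1 ∧ A.ex K ≠ 0 then 1 else 0) +
      2 * ∑ K ∈ A.NT, (if A.s K = 2 ∧ A.ex K ≠ 0 then 1 else 0) := by
    rw [A.dc (fun _ L => if A.s L ≤ 2 ∧ A.ex L ≠ 0 then 1 else 0), mul_sum, ← sum_add_distrib]
    refine sum_congr rfl fun K hK => ?_
    rw [sum_const, smul_eq_mul]
    have h0 : (A.ntn K).card = A.s K := rfl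
    have h := A.s_pos (by omega) hK
    rw [h0]
    by_cases h1 : A.ex K = 0
    · rw [if_neg (fun h2 => h2.2 h1), if_neg (fun h2 => h2.2 h1), if_neg (fun h2 => h2.2 h1)]
      rfl
    · by_cases h2 : A.s K = 1
      · rw [if_pos ⟨by omega, h1⟩, if_pos ⟨h2, h1⟩, if_neg (fun h3 => by omega), h2]
        rfl
      · by_cases h3 : A.s K = 2
        · rw [if_pos ⟨by omega, h1⟩, if_neg (fun h4 => h2 h4.1), if_pos ⟨h3, h1⟩, h3]
          rfl
        · rw [if_neg (fun h4 => by omega), if_neg (fun h4 => h2 h4.1),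
            if_neg (fun h4 => h3 h4.1)]
          rfl
  -- the leaves
  have c8 : ∑ K ∈ A.NT, A.lam K = ∑ K ∈ A.NT, (if A.s K = 1 then 1 else 0) :=
    A.sum_leaf (fun _ => 1)
  have c9 : ∑ K ∈ A.NT, A.lam K = ∑ K ∈ A.NT, (if A.s K = 2 then A.lam K else 0) +
      ∑ K ∈ A.NT, (if 3 ≤ A.s K then A.lam K else 0) := by
    rw [← sum_add_distrib]
    refine sum_congr rfl fun K hK => ?_
    have h := A.s_pos (by omega) hK
    by_cases h1 : A.s K = 1
    · have h2 : A.lam K = 0 := sum_eq_zero fun L hL => if_neg (A.lam_one (by omega) hK h1 L hL)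
      rw [h2]
      split_ifs <;> rfl
    · split_ifs <;> omega
  have hb := A.sum_bound hne
  have c10 : ∑ K ∈ A.NT, A.lam K ≤ A.LgR.card + A.Y + ∑ K ∈ A.NT, A.lq K := by
    have h1 : ∑ K ∈ A.NT, A.lam K ≤ _ := sum_le_sum fun K hK => A.lam_le hK
    rw [sum_add_distrib] at h1
    omega
  have c11 : ∑ K ∈ A.NT, (if A.s K = 2 then A.lam K else 0) ≤
      A.LgR.card + A.Y + ∑ K ∈ A.NT, (if A.s K = 2 then A.lq K else 0) := by
    have h1 : ∑ K ∈ A.NT, (if A.s K = 2 then A.lam K else 0) ≤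
        ∑ K ∈ A.NT, (∑ L ∈ A.ntn K,
          (if L ∈ A.L1 then (if L ∈ A.LgR then 1 else 0) + A.gg L else 0) +
          (if A.s K = 2 then A.lq K else 0)) := by
      refine sum_le_sum fun K hK => ?_
      by_cases h : A.s K = 2
      · rw [if_pos h, if_pos h]
        exact A.lam_le hK
      · rw [if_neg h]
        exact Nat.zero_le _
    rw [sum_add_distrib] at h1
    omega
  -- the cost
  have c12 : ∑ K ∈ A.NT, A.cost K = 4 * ∑ K ∈ A.NT, A.lq K +
      ∑ K ∈ A.NT, (if A.s K = 2 then A.lq K else 0) +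
      3 * ∑ K ∈ A.NT, (if A.s K = 2 ∧ A.ex K ≠ 0 then 1 else 0) +
      ∑ K ∈ A.NT, (if A.s K = 1 ∧ A.ex K ≠ 0 then 1 else 0) := by
    rw [mul_sum, mul_sum, ← sum_add_distrib, ← sum_add_distrib, ← sum_add_distrib]
    refine sum_congr rfl fun K hK => ?_
    have h := A.s_pos (by omega) hK
    unfold cost
    by_cases h3 : 3 ≤ A.s K
    · rw [if_pos h3, if_neg (by omega), if_neg (fun h4 => by omega), if_neg (fun h4 => by omega)]
      rfl
    · rw [if_neg h3]
      by_cases h2 : A.s K = 2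
      · rw [if_pos h2, if_pos h2, if_neg (show ¬ (A.s K = 1 ∧ A.ex K ≠ 0) from fun h4 => by omega)]
        by_cases h1 : A.ex K = 0
        · rw [if_pos h1, if_neg (fun h4 => h4.2 h1)]; omega
        · rw [if_neg h1, if_pos ⟨h2, h1⟩]; omega
      · have h1 : A.s K = 1 := by omega
        have h0 := A.lq_one (by omega) hK h1
        rw [if_neg h2, if_neg h2, if_neg (show ¬ (A.s K = 2 ∧ A.ex K ≠ 0) from fun h4 => h2 h4.1),
          h0]
        by_cases h4 : A.ex K = 0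
        · rw [if_pos h4, if_neg (fun h5 => h5.2 h4)]
          rfl
        · rw [if_neg h4, if_pos ⟨h1, h4⟩]
          rfl
  omega

end Arr

end Pool.Agent.helper54.AB
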