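import Mathlib
import Pool.Agent.helper9.AB2.ArithR

/-! [AB2-7] Refined counting in the tree of components, second part. -/

set_option linter.unusedSectionVars false

namespace Pool.Agent.helper54.AB

open Finset

namespace Arr

variable {Q : Type} [Fintype Q] [DecidableEq Q] (A : Arr Q)

private theorem df_ex (K : Q) : 2 * A.ex K ≤ A.df K := le_max_left _ _

private theorem df_lg (K : Q) : 7 * (A.lg K).card ≤ A.df K :=
  (le_max_left _ _).trans (le_max_right _ _)

private theorem df_14 {K : Q} (h : A.ex K ≠ 0) : 14 ≤ A.df K := by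
  have h1 : (if A.ex K = 0 then 0 else 14) ≤ A.df K :=
    (le_max_right _ _).trans (le_max_right _ _)
  rwa [if_neg h] at h1

private theorem lq_le (K : Q) : A.lq K ≤ (A.lg K).card := card_filter_le _ _

private theorem sum_ex : ∑ K ∈ A.NT, A.ex K = A.X := rfl

private theorem two_X : 2 * A.X ≤ A.Df := by
  rw [← A.sum_ex, Df, mul_sum]
  exact sum_le_sum fun K _ => A.df_ex K

/-- Proof: `ex K = 0`: `lg K = ∅`, so `lq K = 0` and `cost K = 0`. Otherwise `df K ≥ 14`,
`df K ≥ 2 ex K`, `df K ≥ 7 lq K`: `322 ex ≤ 161 df`; `s ≥ 3`: `1120 * 4 lq = 640 * 7 lq ≤ 640 df`;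
`s = 2`: `1120 (5 lq + 3) ≤ 1120 * 8 = 640 * 14 ≤ 640 df` (`lq_two`); `s = 1`: `1120 ≤ 640 df`. -/
theorem cost_le (hN : 4 ≤ A.NT.card) {K : Q} (hK : K ∈ A.NT) :
    1120 * A.cost K + 322 * A.ex K ≤ 801 * A.df K := by
  have h1 := A.df_ex K
  have h2 := A.df_lg K
  have h3 := A.lq_le K
  by_cases h0 : A.ex K = 0
  · have h4 : A.lg K = ∅ := A.lg_empty (A.mem_NT.1 hK) h0
    have h5 : A.lq K = 0 := by
      rw [h4, card_empty] at h3
      omega
    have h6 : A.cost K = 0 := by
      unfold cost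
      rw [h5, if_pos h0]
      split_ifs <;> rfl
    rw [h6, h0]
    exact Nat.zero_le _
  · have h4 := A.df_14 h0
    by_cases h5 : 3 ≤ A.s K
    · have h6 : A.cost K = 4 * A.lq K := by
        unfold cost
        rw [if_pos h5]
      omega
    · by_cases h7 : A.s K = 2
      · have h6 : A.cost K = 5 * A.lq K + 3 := by
          unfold cost
          rw [if_neg h5, if_pos h7, if_neg h0]
        have h8 := A.lq_two hN hK h7
        omega
      · have h6 : A.cost K = 1 := by
          unfold cost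
          rw [if_neg h5, if_neg h7, if_neg h0]
        omega

/-- Proof: `n_le` times `14`, `NT_le` times `1120` and the sum of `cost_le`. -/
theorem count_R (hN : 4 ≤ A.NT.card) : 84 * A.n + 10192 ≤
    1120 * A.G2.card + 5600 * A.LgR.card + 801 * A.Df + 7084 * A.Y := by
  have h1 := A.n_le (card_pos.1 (by omega))
  have h2 := A.NT_le hN
  have h3 : 1120 * ∑ K ∈ A.NT, A.cost K + 322 * A.X ≤ 801 * A.Df := by
    rw [← A.sum_ex, Df, mul_sum, mul_sum, mul_sum, ← sum_add_distrib]
    exact sum_le_sum fun K hK => A.cost_le hN hK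
  omega

/-- few nontree components; `n_le` and `2 X ≤ Df` -/
theorem count_R' (hN : A.NT.Nonempty) (h3 : A.NT.card ≤ 3) :
    12 * A.n ≤ 304 + 23 * A.Df + 52 * A.Y := by
  have h1 := A.n_le hN
  have h2 := A.two_X
  omega

/-- Proof: `70 h ≤ Σ_{NT} (14 m K - df K)` and `Σ_{NT} m K = n - 2 - Y`. -/
theorem final_R {h : ℕ} (hh : 70 * h + A.Df ≤ 14 * ∑ K ∈ A.NT, A.m K) :
    70 * h + A.Df + 14 * A.Y + 28 ≤ 14 * A.n := by
  have h1 : ∑ K ∈ A.NT, A.m K + A.Y = ∑ K, A.m K := sum_add_sum_compl A.NT A.m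
  have h2 := A.sum_m
  omega

end Arr

end Pool.Agent.helper54.AB
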