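import Mathlib
import Pool.Agent.helper9.IFP.KL
import Pool.Agent.helper54.AB.Defs

/-! [AB2-1] A refined bound for feedback vertex sets. -/

set_option linter.unusedSectionVars false

namespace Pool.Agent.helper9.AB2

open Finset Pool.Agent.helper60.ECD Pool.Agent.helper54.LFP Pool.Agent.helper54.AB
open Pool.Agent.helper9.IFP
open scoped Classical

private lemma Ref_sum {N E : Type} [DecidableEq N] [DecidableEq E]
    (a b : E → N) (M : Finset E) (C : Finset N) (J : Finset (Finset N))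
    (hJ : ∀ P ∈ J, P ⊆ C) (hd : (J : Set (Finset N)).PairwiseDisjoint id) :
    (inE a b M C \ J.biUnion (inE a b M)).card + ∑ P ∈ J, ein a b M P = ein a b M C := by
  have h1 : (J.biUnion (inE a b M)).card = ∑ P ∈ J, ein a b M P := by
    unfold ein
    rw [card_biUnion]
    intro P hP Q hQ hPQ
    have h := hd (mem_coe.2 hP) (mem_coe.2 hQ) hPQ
    simp only [Function.onFun, id] at h ⊢
    rw [disjoint_left]
    intro e he he'
    rw [mem_inE] at he he'
    exact (disjoint_left.1 h) he.2.1 he'.2.1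
  have h2 : J.biUnion (inE a b M) ⊆ inE a b M C := by
    intro e he
    rw [mem_biUnion] at he
    obtain ⟨P, hP, he⟩ := he
    rw [mem_inE] at he ⊢
    exact ⟨he.1, hJ P hP he.2.1, hJ P hP he.2.2⟩
  rw [← h1, card_sdiff_add_card_eq_card h2]
  rfl

private lemma Ref_first {N E : Type} [DecidableEq N] [DecidableEq E]
    (a b : E → N) (M : Finset E) (C : Finset N) (hC : Conn a b M C)
    (J : Finset (Finset N)) (hA : Adm a b M C J) (z : ℕ) (hz : z ≤ ∑ P ∈ J, wt a b M P)
    (h1 : 5 * ∑ P ∈ J, wt a b M P ≤ ∑ P ∈ J, ein a b M P)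
    (h2 : 2 * ∑ P ∈ J, wt a b M P + ∑ P ∈ J, P.card ≤ ∑ P ∈ J, ein a b M P + 2 * J.card) :
    7 * z + C.card ≤ 2 * ein a b M C + 2 := by
  obtain ⟨W, hW⟩ : ∃ W, W = J.biUnion id := ⟨_, rfl⟩
  have hWC : W ⊆ C := by
    rw [hW]
    intro x hx
    rw [mem_biUnion] at hx
    obtain ⟨P, hP, hx⟩ := hx
    exact (hA.1 P hP).1 hx
  have hWc : W.card = ∑ P ∈ J, P.card := by
    rw [hW, card_biUnion]
    · rfl
    · intro P hP Q hQ hPQ
      exact hA.2 (mem_coe.2 hP) (mem_coe.2 hQ) hPQ
  have hCc : (C \ W).card + W.card = C.card := card_sdiff_add_card_eq_card hWC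
  obtain ⟨S, hS⟩ : ∃ S : Finset (Finset N), S = (C \ W).image (fun x => {x}) := ⟨_, rfl⟩
  have hSc : S.card = (C \ W).card := by
    rw [hS]
    exact card_image_of_injective _ (fun x y h => singleton_injective h)
  have hJS : Disjoint J S := by
    rw [disjoint_left]
    intro P hP hPS
    rw [hS, mem_image] at hPS
    obtain ⟨x, hx, hxP⟩ := hPS
    rw [mem_sdiff] at hx
    apply hx.2
    rw [hW, mem_biUnion]
    exact ⟨P, hP, by rw [← hxP]; exact mem_singleton_self x⟩
  have h4 := conn_partition a b M C hC (J ∪ S) (by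
      intro P hP
      rw [mem_union] at hP
      rcases hP with hP | hP
      · exact (hA.1 P hP).2.1
      · rw [hS, mem_image] at hP
        obtain ⟨x, -, hxP⟩ := hP
        rw [← hxP]
        exact singleton_nonempty x) (by
      have key : ∀ P ∈ J, ∀ Q ∈ S, Disjoint P Q := by
        intro P hP Q hQ
        rw [hS, mem_image] at hQ
        obtain ⟨x, hx, hxQ⟩ := hQ
        rw [← hxQ, disjoint_singleton_right]
        intro hxP
        rw [mem_sdiff] at hx
        apply hx.2
        rw [hW, mem_biUnion]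
        exact ⟨P, hP, hxP⟩
      intro P hP Q hQ hPQ
      rw [mem_coe, mem_union] at hP hQ
      simp only [Function.onFun, id]
      rcases hP with hP | hP <;> rcases hQ with hQ | hQ
      · exact hA.2 (mem_coe.2 hP) (mem_coe.2 hQ) hPQ
      · exact key P hP Q hQ
      · exact (key Q hQ P hP).symm
      · rw [hS, mem_image] at hP hQ
        obtain ⟨x, -, hx⟩ := hP
        obtain ⟨y, -, hy⟩ := hQ
        rw [← hx, ← hy, disjoint_singleton]
        intro hxy
        apply hPQ
        rw [← hx, ← hy, hxy]) (by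
      ext x
      rw [mem_biUnion]
      constructor
      · rintro ⟨P, hP, hx⟩
        rw [mem_union] at hP
        rcases hP with hP | hP
        · exact (hA.1 P hP).1 hx
        · rw [hS, mem_image] at hP
          obtain ⟨y, hy, hyP⟩ := hP
          rw [← hyP, id, mem_singleton] at hx
          rw [hx]
          exact (mem_sdiff.1 hy).1
      · intro hx
        by_cases hxW : x ∈ W
        · rw [hW, mem_biUnion] at hxW
          obtain ⟨P, hP, hxP⟩ := hxW
          exact ⟨P, mem_union_left _ hP, hxP⟩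
        · refine ⟨{x}, mem_union_right _ ?_, mem_singleton_self x⟩
          rw [hS, mem_image]
          exact ⟨x, mem_sdiff.2 ⟨hx, hxW⟩, rfl⟩)
  rw [card_union_of_disjoint hJS, sum_union hJS, hSc] at h4
  omega

/-- `C` a connected set of vertices, `R` a finite set of indices, `I i` (`i ∈ R`) a nonempty
connected set of edges inside `C`, such that every edge is in at most two of them.

Proof. `exists_fvs` (`Pool.Agent.helper9.IFP.ThmN`) for `U = C` gives `Z` and the admissible family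
`J`. For `P ∈ J`, `hp` gives `10 wt P ≤ 5 (e(P) + 2 - |P|) ≤ 2 e(P) - q(P)`, where `q(P)` is the number
of `i ∈ R` with `I i ⊆ inE P`.
First inequality: exactly the proof of `fvs_stable` (`Pool.Agent.helper9.IFP.KL`):
`5 Σ wt ≤ Σ e(P)`, `2 Σ wt ≤ Σ (e(P) + 2 - |P|)` and `conn_partition` for `J` and the singletons of
the rest.
Second inequality: `10 |Z| ≤ 2 Σ e(P) - Σ q(P)`. Let `i ∈ R`. If every edge of `I i` is inside some
`P ∈ J`, then take one of them, inside `P0`; for every `e ∈ I i`, `a e ∈ P0 ↔ b e ∈ P0` (the sets in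
`J` are disjoint), so `hI2` gives `I i ⊆ inE P0`, and `i` is counted in `q(P0)`. Otherwise some
`e ∈ I i` is one of the `e(C) - Σ e(P)` edges inside `C` and not inside a `P ∈ J`; every such edge is
in at most two `I i`. So `|R| ≤ Σ q(P) + 2 (e(C) - Σ e(P))`. -/
theorem fvs_refined {N E κ : Type} [DecidableEq N] [DecidableEq E] [DecidableEq κ]
    (a b : E → N) (M : Finset E) (hab : ∀ e ∈ M, a e ≠ b e) (C : Finset N) (hC : Conn a b M C)
    (R : Finset κ) (I : κ → Finset E)
    (hI1 : ∀ i ∈ R, (I i).Nonempty ∧ I i ⊆ inE a b M C)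
    (hI2 : ∀ i ∈ R, ∀ P : Finset N, (∀ e ∈ I i, (a e ∈ P ↔ b e ∈ P)) →
      ∀ e ∈ I i, ∀ e' ∈ I i, a e ∈ P → a e' ∈ P)
    (hI3 : ∀ e, (R.filter (fun i => e ∈ I i)).card ≤ 2)
    (hp : ∀ P ⊆ C, P.Nonempty → P.card ≤ ein a b M P →
      3 * ein a b M P + 10 + (R.filter (fun i => I i ⊆ inE a b M P)).card ≤ 5 * P.card) :
    ∃ Z ⊆ C, Fst a b M (C \ Z) ∧ 7 * Z.card + C.card ≤ 2 * ein a b M C + 2 ∧
      10 * Z.card + R.card ≤ 2 * ein a b M C := by
  obtain ⟨Z, hZ, J, hA, hF, hc⟩ := exists_fvs a b M hab C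
  have hwt : ∀ P ∈ J, 10 * wt a b M P + (R.filter (fun i => I i ⊆ inE a b M P)).card
      ≤ 2 * ein a b M P ∧ 2 * wt a b M P + P.card ≤ ein a b M P + 2 := by
    intro P hP
    have h1 := hp P (hA.1 P hP).1 (hA.1 P hP).2.1 (hA.1 P hP).2.2
    have h2 := (hA.1 P hP).2.2
    unfold wt
    omega
  have hs1 : 10 * ∑ P ∈ J, wt a b M P + ∑ P ∈ J, (R.filter (fun i => I i ⊆ inE a b M P)).card
      ≤ 2 * ∑ P ∈ J, ein a b M P := by
    rw [mul_sum, mul_sum, ← sum_add_distrib]
    exact sum_le_sum (fun P hP => (hwt P hP).1)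
  have hs2 : 2 * ∑ P ∈ J, wt a b M P + ∑ P ∈ J, P.card ≤ ∑ P ∈ J, ein a b M P + 2 * J.card := by
    rw [mul_sum, ← sum_add_distrib]
    have h3 : ∑ P ∈ J, ein a b M P + 2 * J.card = ∑ P ∈ J, (ein a b M P + 2) := by
      rw [sum_add_distrib, sum_const, smul_eq_mul, mul_comm J.card 2]
    rw [h3]
    exact sum_le_sum (fun P hP => (hwt P hP).2)
  have hX := Ref_sum a b M C J (fun P hP => (hA.1 P hP).1) hA.2
  have hR1 : (R.filter (fun i => ∃ P ∈ J, I i ⊆ inE a b M P)).card
      ≤ ∑ P ∈ J, (R.filter (fun i => I i ⊆ inE a b M P)).card := by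
    refine le_trans (card_le_card ?_) card_biUnion_le
    intro i hi
    rw [mem_filter] at hi
    obtain ⟨hi, P, hP, hiP⟩ := hi
    rw [mem_biUnion]
    exact ⟨P, hP, mem_filter.2 ⟨hi, hiP⟩⟩
  have hR2 : (R.filter (fun i => ¬ ∃ P ∈ J, I i ⊆ inE a b M P)).card
      ≤ 2 * (inE a b M C \ J.biUnion (inE a b M)).card := by
    have h1 : R.filter (fun i => ¬ ∃ P ∈ J, I i ⊆ inE a b M P) ⊆
        (inE a b M C \ J.biUnion (inE a b M)).biUnion (fun e => R.filter (fun i => e ∈ I i)) := by
      intro i hi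
      rw [mem_filter] at hi
      obtain ⟨hi, hno⟩ := hi
      by_contra hcon
      apply hno
      have hin : ∀ e ∈ I i, ∃ P ∈ J, a e ∈ P ∧ b e ∈ P := by
        intro e he
        by_contra hne
        apply hcon
        rw [mem_biUnion]
        refine ⟨e, mem_sdiff.2 ⟨(hI1 i hi).2 he, fun hm => ?_⟩, mem_filter.2 ⟨hi, he⟩⟩
        rw [mem_biUnion] at hm
        obtain ⟨P, hP, hm⟩ := hm
        rw [mem_inE] at hm
        exact hne ⟨P, hP, hm.2⟩
      obtain ⟨e0, he0⟩ := (hI1 i hi).1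
      obtain ⟨P0, hP0, ha0, hb0⟩ := hin e0 he0
      have hiff : ∀ e ∈ I i, (a e ∈ P0 ↔ b e ∈ P0) := by
        intro e he
        obtain ⟨P, hP, ha, hb⟩ := hin e he
        by_cases hPP : P = P0
        · rw [← hPP]
          exact ⟨fun _ => hb, fun _ => ha⟩
        · have hd := hA.2 (mem_coe.2 hP) (mem_coe.2 hP0) hPP
          simp only [Function.onFun, id] at hd
          exact ⟨fun h => absurd h (disjoint_left.1 hd ha), fun h => absurd h
            (disjoint_left.1 hd hb)⟩
      refine ⟨P0, hP0, fun e he => ?_⟩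
      have hae := hI2 i hi P0 hiff e0 he0 e he ha0
      rw [mem_inE]
      exact ⟨(mem_inE.1 ((hI1 i hi).2 he)).1, hae, (hiff e he).1 hae⟩
    refine le_trans (card_le_card h1) (le_trans card_biUnion_le ?_)
    refine le_trans (sum_le_sum (fun e _ => hI3 e)) ?_
    rw [sum_const, smul_eq_mul, mul_comm]
  have hR := card_filter_add_card_filter_not (s := R) (fun i => ∃ P ∈ J, I i ⊆ inE a b M P)
  refine ⟨Z, hZ, hF, ?_, ?_⟩
  · exact Ref_first a b M C hC J hA Z.card hc (by omega) hs2
  · omega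

/-- Proof: let `Z' ⊆ M` be nonempty and even without an end in `Z`, and `P` the set of its ends,
`P ⊆ C \ Z`. Every `v ∈ P` has at least two edges in `Z'`, so `2 |P| ≤ 2 |Z'|` and
`|P| ≤ |Z'| ≤ ein P`, contradicting `h` for `P`. -/
theorem hit_of_fst {V E : Type} [Fintype V] [Fintype E] [DecidableEq V] [DecidableEq E]
    (a b : E → V) (hne : ∀ e, a e ≠ b e) (M : Finset E) (C Z : Finset V)
    (hM : ∀ e ∈ M, a e ∈ C ∧ b e ∈ C) (h : Fst a b M (C \ Z)) : Hit a b M Z := by
  intro Z' hZ'M hne' hev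
  by_contra hcon
  push Not at hcon
  obtain ⟨P, hP⟩ : ∃ P : Finset V, P = univ.filter (fun v => ∃ e ∈ Z', a e = v ∨ b e = v) :=
    ⟨_, rfl⟩
  have hmP : ∀ v, v ∈ P ↔ ∃ e ∈ Z', a e = v ∨ b e = v := by
    intro v
    rw [hP, mem_filter]
    simp
  have hPC : P ⊆ C \ Z := by
    intro v hv
    obtain ⟨e, he, hev'⟩ := (hmP v).1 hv
    have h1 := hM e (hZ'M he)
    have h2 := hcon e he
    rw [mem_sdiff]
    rcases hev' with h3 | h3
    · rw [← h3]
      exact ⟨h1.1, h2.1⟩
    · rw [← h3]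
      exact ⟨h1.2, h2.2⟩
  have hPne : P.Nonempty := by
    obtain ⟨e, he⟩ := hne'
    exact ⟨a e, (hmP _).2 ⟨e, he, Or.inl rfl⟩⟩
  have h1 := h P hPC hPne
  have h2 : Z'.card ≤ ein a b M P := by
    apply card_le_card
    intro e he
    rw [mem_inE]
    exact ⟨hZ'M he, (hmP _).2 ⟨e, he, Or.inl rfl⟩, (hmP _).2 ⟨e, he, Or.inr rfl⟩⟩
  have h3 : ∀ v ∈ P, 2 ≤ (starS a b v ∩ Z').card := by
    intro v hv
    obtain ⟨e, he, hev'⟩ := (hmP v).1 hv
    have h4 : 0 < (starS a b v ∩ Z').card := by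
      rw [card_pos]
      refine ⟨e, mem_inter.2 ⟨?_, he⟩⟩
      unfold starS
      rw [mem_filter]
      exact ⟨mem_univ _, hev'⟩
    obtain ⟨k, hk⟩ := hev v
    omega
  have h5 : ∑ v ∈ P, (starS a b v ∩ Z').card ≤ 2 * Z'.card := by
    have h6 : ∀ v, starS a b v ∩ Z' = Z'.filter (fun e => a e = v ∨ b e = v) := by
      intro v
      ext e
      unfold starS
      rw [mem_inter, mem_filter, mem_filter]
      simp only [mem_univ, true_and]
      exact and_comm
    simp only [h6]
    have h7 : ∑ v ∈ P, (Z'.filter (fun e => a e = v ∨ b e = v)).card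
        = ∑ e ∈ Z', (P.filter (fun v => a e = v ∨ b e = v)).card :=
      sum_card_bipartiteAbove_eq_sum_card_bipartiteBelow (fun v e => a e = v ∨ b e = v)
    rw [h7]
    have h8 : ∀ e ∈ Z', (P.filter (fun v => a e = v ∨ b e = v)).card ≤ 2 := by
      intro e _
      refine le_trans (card_le_card (t := {a e, b e}) ?_) card_le_two
      intro v hv
      rw [mem_filter] at hv
      rw [mem_insert, mem_singleton]
      rcases hv.2 with h9 | h9
      · exact Or.inl h9.symm
      · exact Or.inr h9.symm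
    refine le_trans (sum_le_sum h8) ?_
    rw [sum_const, smul_eq_mul, mul_comm]
  have h10 : 2 * P.card ≤ ∑ v ∈ P, (starS a b v ∩ Z').card := by
    have h11 := sum_le_sum h3
    rw [sum_const, smul_eq_mul, mul_comm] at h11
    exact h11
  omega

end Pool.Agent.helper9.AB2
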