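import Mathlib
import Pool.Agent.helper54.AB.Pair
import Pool.Agent.helper54.AB.Count

/-! [AB2-2] The strip between two components is connected. author: helper78 -/

set_option linter.unusedSectionVars false

namespace Pool.Agent.helper54.AB

open Finset Pool.Agent.helper60.ECD Pool.Agent.helper54.LFP

variable {V : Type} [Fintype V] [DecidableEq V] {T : SphereTri V} {D : Ends T} (c : Cfg D)

namespace Cfg

/-- the edges of `K` which are in a triangle with apex in `L` -/
noncomputable def II (K L : c.Q) : Finset (TE T) := (c.EK K).filter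
  (fun e => c.cmp (c.apex (D.a1 e)) = L ∨ c.cmp (c.apex (D.b1 e)) = L)

theorem mem_II {K L : c.Q} {e : TE T} : e ∈ c.II K L ↔
    e ∈ c.EK K ∧ (c.cmp (c.apex (D.a1 e)) = L ∨ c.cmp (c.apex (D.b1 e)) = L) := by simp [II]

/-- A set `X` of edges between the neighbouring components `K` and `L` with an even number of edges
in every triangle is empty or contains all edges between `K` and `L`.
Proof: `duality D.a0 D.b0 D.a1 D.b1` for the indicator function of `X` (as in `pair_fun`) gives
`y : V → ZMod 2` with `y (a0 e) + y (b0 e) = 1` iff `e ∈ X`. Edges of `Mo` are not in `DD K L`, so `y`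
is constant on components (`cmp_lift`); so `y (a0 e) + y (b0 e)` is the same for all
`e ∈ DD K L`. -/
theorem strip_all {K L : c.Q} (h : c.Nb K L) (X : Finset (TE T)) (hX : X ⊆ c.DD K L)
    (hev : ∀ t : TF T, Even (X ∩ starS D.a1 D.b1 t).card) : X = ∅ ∨ X = c.DD K L := by
  obtain ⟨hV, hF, -⟩ := sphere_nonempty T
  have hsum : ∀ t : TF T, ∑ e ∈ starS D.a1 D.b1 t, (if e ∈ X then (1 : ZMod 2) else 0) = 0 := by
    intro t
    have h1 : ∑ e ∈ starS D.a1 D.b1 t, (if e ∈ X then (1 : ZMod 2) else 0) =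
        ((X ∩ starS D.a1 D.b1 t).card : ZMod 2) := by
      rw [inter_comm, ← Finset.filter_mem_eq_inter, Finset.card_filter, Nat.cast_sum]
      refine Finset.sum_congr rfl fun e _ => ?_
      by_cases h : e ∈ X <;> simp [h]
    rw [h1]
    exact (ZMod.natCast_eq_zero_iff_even).2 (hev t)
  obtain ⟨y, hy⟩ := duality D.a0 D.b0 D.a1 D.b1 D.ne0 D.ne1 D.conn0 D.conn1 D.euler D.even_star
    (fun e => if e ∈ X then 1 else 0) hsum
  have hz : ∀ p q : ZMod 2, 0 = p + q → p = q := by decide
  have hc : ∀ {u v : V}, c.cmp u = c.cmp v → y u = y v := by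
    intro u v huv
    refine c.cmp_lift y (fun e he => hz _ _ ?_) huv
    have h1 : e ∉ X := by
      intro hX'
      have h2 := c.cmp_edge he
      rcases c.mem_DD.1 (hX hX') with h3 | h3
      · exact h.1 (h3.1.symm.trans (h2.trans h3.2))
      · exact h.1 (h3.2.symm.trans (h2.symm.trans h3.1))
    rw [← hy e, if_neg h1]
  have hall : ∀ e ∈ c.DD K L, ∀ f ∈ c.DD K L,
      y (D.a0 e) + y (D.b0 e) = y (D.a0 f) + y (D.b0 f) := by
    intro e he f hf
    rcases c.mem_DD.1 he with h1 | h1 <;> rcases c.mem_DD.1 hf with h2 | h2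
    · rw [hc (h1.1.trans h2.1.symm), hc (h1.2.trans h2.2.symm)]
    · rw [hc (h1.1.trans h2.2.symm), hc (h1.2.trans h2.1.symm), add_comm]
    · rw [hc (h1.1.trans h2.2.symm), hc (h1.2.trans h2.1.symm), add_comm]
    · rw [hc (h1.1.trans h2.1.symm), hc (h1.2.trans h2.2.symm)]
  by_cases hne : X = ∅
  · exact Or.inl hne
  · right
    obtain ⟨e1, he1⟩ := nonempty_iff_ne_empty.2 hne
    refine Subset.antisymm hX fun e he => ?_
    by_contra hn
    have h1 := hall e he e1 (hX he1)
    rw [← hy e, ← hy e1, if_neg hn, if_pos he1] at h1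
    exact zero_ne_one h1

/-- The edge set `II K L` is connected.
Proof: let `X` be the set of the edges of `DD K L` whose end in `K` is in `P`. Every triangle `t`
contains an even number of them: if `t` contains an edge of `DD K L` then it contains exactly two,
the two edges at the apex (`edge_cases`, `apex_edges`); if the base is in `K` and the apex in `L`,
the base is in `II K L`, and both of its ends are in `P` or none; if the base is in `L`, the end in
`K` of both edges is the apex. By `strip_all` `X` is empty or everything. For `e ∈ II K L` let `t` be a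
triangle with base `e` and apex in `L`; the edge joining `a0 e` to the apex is in `DD K L`, and its
end in `K` is `a0 e`. -/
theorem II_conn {K L : c.Q} (h : c.Nb K L) (P : Finset V)
    (hP : ∀ e ∈ c.II K L, (D.a0 e ∈ P ↔ D.b0 e ∈ P)) :
    ∀ e ∈ c.II K L, ∀ e' ∈ c.II K L, D.a0 e ∈ P → D.a0 e' ∈ P := by
  classical
  -- the edges of `DD K L` whose end in `K` is in `P`
  have hmemX : ∀ e, e ∈ (c.DD K L).filter (fun e => ∃ v ∈ e.1, c.cmp v = K ∧ v ∈ P) ↔
      e ∈ c.DD K L ∧ ∃ v ∈ e.1, c.cmp v = K ∧ v ∈ P := fun e => mem_filter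
  have hstar : ∀ (t : TF T) (e : TE T), e ∈ starS D.a1 D.b1 t ↔ e.1 ⊆ t.1 := by
    intro t e
    rw [mem_starS, D.two e t]
    exact ⟨fun h => h.imp Eq.symm Eq.symm, fun h => h.imp Eq.symm Eq.symm⟩
  have hev : ∀ t : TF T, Even ((c.DD K L).filter (fun e => ∃ v ∈ e.1, c.cmp v = K ∧ v ∈ P) ∩
      starS D.a1 D.b1 t).card := by
    intro t
    have hpq : c.cmp (D.a0 (c.base t)) = c.cmp (D.b0 (c.base t)) := c.cmp_edge (c.base_mem t)
    obtain ⟨⟨e1, he1, hs1⟩, ⟨e2, he2, hs2⟩⟩ := c.apex_edges t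
    have hne : e1 ≠ e2 := by
      intro h12
      rw [h12, he2] at he1
      have hb : D.b0 (c.base t) ∈ ({c.apex t, D.a0 (c.base t)} : Finset V) := by
        rw [← he1]; exact mem_insert_of_mem (mem_singleton_self _)
      rw [mem_insert, mem_singleton] at hb
      rcases hb with hb | hb
      · exact c.apex_ne' t (congrArg c.cmp hb.symm)
      · exact D.ne0 _ hb.symm
    have hbase : c.base t ∉ c.DD K L := by
      rw [c.mem_DD]
      rintro (⟨h1, h2⟩ | ⟨h1, h2⟩)
      · exact h.1 (h1.symm.trans (hpq.trans h2))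
      · exact h.1 (h2.symm.trans (hpq.symm.trans h1))
    have hin : ∀ e, e ∈ (c.DD K L).filter (fun e => ∃ v ∈ e.1, c.cmp v = K ∧ v ∈ P) ∩
        starS D.a1 D.b1 t → e = e1 ∨ e = e2 := by
      intro e he
      rw [mem_inter, hmemX, hstar] at he
      rcases c.edge_cases he.2 with h3 | h3 | h3
      · rw [h3] at he; exact absurd he.1.1 hbase
      · exact Or.inl (Subtype.ext (h3.trans he1.symm))
      · exact Or.inr (Subtype.ext (h3.trans he2.symm))
    have hiff : (e1 ∈ (c.DD K L).filter (fun e => ∃ v ∈ e.1, c.cmp v = K ∧ v ∈ P)) ↔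
        (e2 ∈ (c.DD K L).filter (fun e => ∃ v ∈ e.1, c.cmp v = K ∧ v ∈ P)) := by
      rw [hmemX, hmemX, c.mem_DD_pair he1, c.mem_DD_pair he2, he1, he2, ← hpq]
      refine and_congr_right fun hc => ?_
      simp only [mem_insert, mem_singleton, exists_eq_or_imp, exists_eq_left]
      rcases hc with ⟨h1, h2⟩ | ⟨h1, h2⟩
      · have h3 : c.cmp (D.a0 (c.base t)) ≠ K := fun h4 => h.1 (h4.symm.trans h2)
        have h4 : c.cmp (D.b0 (c.base t)) ≠ K := fun h5 => h3 (hpq.trans h5)
        simp [h3, h4]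
      · have h3 : c.cmp (c.apex t) ≠ K := fun h4 => h.1 (h4.symm.trans h1)
        have h4 : c.base t ∈ c.II K L := by
          rw [c.mem_II, c.mem_EK]
          refine ⟨⟨c.base_mem t, h2⟩, ?_⟩
          rcases (D.two (c.base t) t).1 (c.base_sub t) with h5 | h5
          · left; rw [← h5]; exact h1
          · right; rw [← h5]; exact h1
        have h5 := hP _ h4
        have h6 : c.cmp (D.b0 (c.base t)) = K := hpq.symm.trans h2
        simp [h3, h2, h6, h5]
    by_cases h1 : e1 ∈ (c.DD K L).filter (fun e => ∃ v ∈ e.1, c.cmp v = K ∧ v ∈ P)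
    · have h2 : (c.DD K L).filter (fun e => ∃ v ∈ e.1, c.cmp v = K ∧ v ∈ P) ∩
          starS D.a1 D.b1 t = {e1, e2} := by
        ext e
        rw [mem_insert, mem_singleton]
        refine ⟨hin e, ?_⟩
        rintro (rfl | rfl)
        · exact mem_inter.2 ⟨h1, (hstar t _).2 hs1⟩
        · exact mem_inter.2 ⟨hiff.1 h1, (hstar t _).2 hs2⟩
      rw [h2, card_pair hne]
      exact even_two
    · have h2 : (c.DD K L).filter (fun e => ∃ v ∈ e.1, c.cmp v = K ∧ v ∈ P) ∩
          starS D.a1 D.b1 t = ∅ := by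
        refine eq_empty_of_forall_notMem fun e he => ?_
        rcases hin e he with h3 | h3
        · exact h1 (h3 ▸ (mem_inter.1 he).1)
        · exact h1 (hiff.2 (h3 ▸ (mem_inter.1 he).1))
      rw [h2, card_empty]
      exact Even.zero
  have hside : ∀ e ∈ c.II K L, ∃ w, ∃ f : TE T, f.1 = {w, D.a0 e} ∧ c.cmp w = L ∧
      c.cmp (D.a0 e) = K ∧ f ∈ c.DD K L := by
    intro e he
    rw [c.mem_II, c.mem_EK] at he
    obtain ⟨⟨h1, h2⟩, h3⟩ := he
    obtain ⟨t, ht1, ht2⟩ : ∃ t, e.1 ⊆ t.1 ∧ c.cmp (c.apex t) = L := by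
      rcases h3 with h3 | h3
      · exact ⟨D.a1 e, (D.two e _).2 (Or.inl rfl), h3⟩
      · exact ⟨D.b1 e, (D.two e _).2 (Or.inr rfl), h3⟩
    have hb := c.base_eq h1 ht1
    obtain ⟨⟨f, hf, -⟩, -⟩ := c.apex_edges t
    rw [hb] at hf
    exact ⟨c.apex t, f, hf, ht2, h2, (c.mem_DD_pair hf).2 (Or.inr ⟨ht2, h2⟩)⟩
  intro e he e' he' hea
  obtain ⟨w, f, hf, hw, hK, hfD⟩ := hside e he
  obtain ⟨w', f', hf', hw', hK', hfD'⟩ := hside e' he'
  have hfX : f ∈ (c.DD K L).filter (fun e => ∃ v ∈ e.1, c.cmp v = K ∧ v ∈ P) := by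
    refine (hmemX f).2 ⟨hfD, D.a0 e, ?_, hK, hea⟩
    rw [hf]; exact mem_insert_of_mem (mem_singleton_self _)
  rcases c.strip_all h _ (filter_subset _ _) hev with h1 | h1
  · rw [h1] at hfX
    exact absurd hfX (notMem_empty _)
  · rw [← h1, hmemX, hf'] at hfD'
    obtain ⟨-, v, hv, hvK, hvP⟩ := hfD'
    rw [mem_insert, mem_singleton] at hv
    rcases hv with hv | hv
    · rw [hv, hw'] at hvK
      exact absurd hvK.symm h.1
    · rw [← hv]; exact hvP

theorem II_two (K : c.Q) (e : TE T) : (univ.filter (fun L => e ∈ c.II K L)).card ≤ 2 := by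
  refine (card_le_card (t := {c.cmp (c.apex (D.a1 e)), c.cmp (c.apex (D.b1 e))}) ?_).trans
    card_le_two
  intro L hL
  rw [mem_filter, c.mem_II] at hL
  rw [mem_insert, mem_singleton]
  exact hL.2.2.imp Eq.symm Eq.symm

theorem II_nonempty {K L : c.Q} (h : 1 ≤ c.tau K L) : (c.II K L).Nonempty := by
  unfold tau at h
  obtain ⟨t, ht⟩ := card_pos.1 (show 0 < (c.TA K L).card by omega)
  rw [c.mem_TA] at ht
  refine ⟨c.base t, c.mem_II.2 ⟨ht.1, ?_⟩⟩
  rcases (D.two (c.base t) t).1 (c.base_sub t) with h5 | h5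
  · left; rw [← h5]; exact ht.2
  · right; rw [← h5]; exact ht.2

end Cfg

end Pool.Agent.helper54.AB
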