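import Mathlib
import Pool.Agent.helper9.AB2.Long
import Pool.Agent.helper9.IFP.Base
import Pool.Agent.helper54.AB.Sparse

/-! [AB2-3] Refined sparsity. -/

set_option linter.unusedSectionVars false

namespace Pool.Agent.helper54.AB

open Finset Pool.Agent.helper60.ECD Pool.Agent.helper54.LFP

variable {V : Type} [Fintype V] [DecidableEq V] {T : SphereTri V} {D : Ends T} (c : Cfg D)

namespace Cfg

/-- The long sides of the component `K`. -/
noncomputable def LS (K : c.Q) : Finset c.Q := univ.filter (fun L => c.Nb K L ∧ 6 ≤ c.tau K L)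

private theorem spr_edges {K L : c.Q} (h : K ≠ L) (t : TF T) :
    Even ((c.DD K L).filter (fun e => e.1 ⊆ t.1)).card := by
  have hpq : c.cmp (D.a0 (c.base t)) = c.cmp (D.b0 (c.base t)) := c.cmp_edge (c.base_mem t)
  obtain ⟨⟨e1, he1, hs1⟩, ⟨e2, he2, hs2⟩⟩ := c.apex_edges t
  have hne : e1 ≠ e2 := by
    intro h12
    rw [h12, he2] at he1
    have hb : D.b0 (c.base t) ∈ ({c.apex t, D.a0 (c.base t)} : Finset V) := by
      rw [← he1]; exact mem_insert_of_mem (mem_singleton_self _)
    rw [mem_insert, mem_singleton] at hb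
    rcases hb with hb | hb
    · exact c.apex_ne' t (congrArg c.cmp hb.symm)
    · exact D.ne0 _ hb.symm
  have hbase : c.base t ∉ c.DD K L := by
    rw [c.mem_DD]
    rintro (⟨h1, h2⟩ | ⟨h1, h2⟩)
    · exact h (h1.symm.trans (hpq.trans h2))
    · exact h (h2.symm.trans (hpq.symm.trans h1))
  by_cases hc : (c.cmp (c.apex t) = K ∧ c.cmp (D.a0 (c.base t)) = L) ∨
      (c.cmp (c.apex t) = L ∧ c.cmp (D.a0 (c.base t)) = K)
  · have hfil : (c.DD K L).filter (fun e => e.1 ⊆ t.1) = {e1, e2} := by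
      ext e
      rw [mem_filter, mem_insert, mem_singleton]
      constructor
      · rintro ⟨h1, h2⟩
        rcases c.edge_cases h2 with h3 | h3 | h3
        · rw [h3] at h1; exact absurd h1 hbase
        · exact Or.inl (Subtype.ext (h3.trans he1.symm))
        · exact Or.inr (Subtype.ext (h3.trans he2.symm))
      · rintro (h1 | h1)
        · rw [h1]; exact ⟨(c.mem_DD_pair he1).2 hc, hs1⟩
        · rw [h1]; refine ⟨(c.mem_DD_pair he2).2 ?_, hs2⟩
          rw [← hpq]; exact hc
    rw [hfil, card_pair hne]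
    exact even_two
  · have h0 : ((c.DD K L).filter (fun e => e.1 ⊆ t.1)) = ∅ := by
      ext e
      rw [mem_filter]
      constructor
      · rintro ⟨h1, h2⟩
        exfalso
        rcases c.edge_cases h2 with h3 | h3 | h3
        · rw [h3] at h1; exact hbase h1
        · exact hc ((c.mem_DD_pair h3).1 h1)
        · have h4 := (c.mem_DD_pair h3).1 h1
          rw [← hpq] at h4
          exact hc h4
      · intro h1; exact absurd h1 (notMem_empty _)
    rw [h0, card_empty]
    exact Even.zero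

/-- the class of a triangle with respect to the edges outside `X` -/
private noncomputable def scl (D : Ends T) (X : Finset (TE T)) (t : TF T) :
    Cp D.a1 D.b1 Xᶜ := Quot.mk _ t

private theorem scl_eq {X : Finset (TE T)} {e : TE T} (he : e ∉ X) {t : TF T}
    (ht : e.1 ⊆ t.1) : scl D X t = scl D X (D.a1 e) := by
  have h1 : scl D X (D.a1 e) = scl D X (D.b1 e) :=
    Quot.sound ⟨e, mem_compl.2 he, rfl, rfl⟩
  rcases (D.two e t).1 ht with h | h
  · rw [h]
  · rw [h, h1]

/-- all triangles with base in `K` and apex in `L` are in the same class -/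
private theorem scl_TA {K L : c.Q} (h : c.Nb K L) {X : Finset (TE T)} (hX : X ⊆ c.EK K)
    {t0 t : TF T} (h0 : t0 ∈ c.TA K L) (ht : t ∈ c.TA K L) : scl D X t = scl D X t0 := by
  classical
  have hDX : ∀ e ∈ c.DD K L, e ∉ X := by
    intro e he hx
    have h1 := (c.mem_EK.1 (hX hx)).1
    have h2 := c.cmp_edge h1
    rcases c.mem_DD.1 he with ⟨h3, h4⟩ | ⟨h3, h4⟩
    · exact h.1 (h3.symm.trans (h2.trans h4))
    · exact h.1 (h4.symm.trans (h2.symm.trans h3))
  -- the edge of a triangle joining the apex to the first end of the base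
  have hap : ∀ s ∈ c.TA K L, ∃ e ∈ c.DD K L, e.1 ⊆ s.1 := by
    intro s hs
    obtain ⟨⟨e1, he1, hs1⟩, -⟩ := c.apex_edges s
    have h2 := c.mem_TA.1 hs
    exact ⟨e1, (c.mem_DD_pair he1).2 (Or.inr ⟨h2.2, (c.mem_EK.1 h2.1).2⟩), hs1⟩
  set Y : Finset (TE T) := (c.DD K L).filter (fun e => scl D X (D.a1 e) = scl D X t0) with hY
  have hYs : Y ⊆ c.DD K L := filter_subset _ _
  have hev : ∀ s : TF T, Even (Y ∩ starS D.a1 D.b1 s).card := by
    intro s
    by_cases hs : scl D X s = scl D X t0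
    · have h3 : Y ∩ starS D.a1 D.b1 s = (c.DD K L).filter (fun e => e.1 ⊆ s.1) := by
        ext e
        rw [mem_inter, hY, mem_filter, mem_filter, mem_starS]
        constructor
        · rintro ⟨⟨h4, -⟩, h5⟩
          exact ⟨h4, (D.two e s).2 (h5.imp Eq.symm Eq.symm)⟩
        · rintro ⟨h4, h5⟩
          refine ⟨⟨h4, ?_⟩, ((D.two e s).1 h5).imp Eq.symm Eq.symm⟩
          rw [← scl_eq (hDX e h4) h5, hs]
      rw [h3]
      exact c.spr_edges h.1 s
    · have h3 : Y ∩ starS D.a1 D.b1 s = ∅ := by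
        ext e
        rw [mem_inter, hY, mem_filter, mem_starS]
        constructor
        · rintro ⟨⟨h4, h6⟩, h5⟩
          exfalso
          apply hs
          rw [scl_eq (hDX e h4) ((D.two e s).2 (h5.imp Eq.symm Eq.symm)), h6]
        · intro h4; exact absurd h4 (notMem_empty _)
      rw [h3, card_empty]
      exact Even.zero
  rcases c.strip_all h Y hYs hev with h5 | h5
  · exfalso
    obtain ⟨e, he, hes⟩ := hap t0 h0
    have h6 : e ∈ Y := by
      rw [hY, mem_filter]
      exact ⟨he, (scl_eq (hDX e he) hes).symm⟩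
    rw [h5] at h6
    exact notMem_empty _ h6
  · obtain ⟨e, he, hes⟩ := hap t ht
    have h6 : e ∈ Y := by rw [h5]; exact he
    rw [hY, mem_filter] at h6
    rw [scl_eq (hDX e he) hes, h6.2]

/-- the triangles with base in `X` of the class `q` -/
private noncomputable def Tq (X : Finset (TE T)) (q : Cp D.a1 D.b1 Xᶜ) : Finset (TF T) := by
  classical exact univ.filter (fun t => c.base t ∈ X ∧ scl D X t = q)

private theorem mem_Tq {X : Finset (TE T)} {q : Cp D.a1 D.b1 Xᶜ} {t : TF T} :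
    t ∈ c.Tq X q ↔ c.base t ∈ X ∧ scl D X t = q := by
  classical
  simp [Tq]

/-- the triangles with base in `X` are at most `2 |X|` -/
private theorem sum_Tq (X : Finset (TE T)) [Fintype (Cp D.a1 D.b1 Xᶜ)] :
    ∑ q : Cp D.a1 D.b1 Xᶜ, (c.Tq X q).card ≤ 2 * X.card := by
  classical
  have h1 : ∑ q : Cp D.a1 D.b1 Xᶜ, (c.Tq X q).card =
      ((univ : Finset (TF T)).filter (fun t => c.base t ∈ X)).card := by
    rw [Finset.card_eq_sum_card_fiberwise (f := fun t => scl D X t)
      (t := (univ : Finset (Cp D.a1 D.b1 Xᶜ))) (fun t _ => by simp)]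
    refine Finset.sum_congr rfl fun q _ => ?_
    congr 1
    ext t
    rw [c.mem_Tq, mem_filter, mem_filter]
    simp
  rw [h1]
  have h2 : (univ : Finset (TF T)).filter (fun t => c.base t ∈ X) ⊆
      X.biUnion (fun e => ({D.a1 e, D.b1 e} : Finset (TF T))) := by
    intro t ht
    rw [mem_biUnion]
    refine ⟨c.base t, (mem_filter.1 ht).2, ?_⟩
    rw [mem_insert, mem_singleton]
    exact (D.two (c.base t) t).1 (c.base_sub t)
  calc _ ≤ (X.biUnion (fun e => ({D.a1 e, D.b1 e} : Finset (TF T)))).card := card_le_card h2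
    _ ≤ ∑ e ∈ X, ({D.a1 e, D.b1 e} : Finset (TF T)).card := card_biUnion_le
    _ ≤ ∑ _e ∈ X, 2 := Finset.sum_le_sum fun e _ => card_le_two
    _ = 2 * X.card := by rw [Finset.sum_const, smul_eq_mul, mul_comm]

/-- every class has at least five triangles with base in `X` -/
private theorem five_Tq {X : Finset (TE T)} (hX : X ⊆ Mo D c.x)
    (h2 : 2 ≤ Nat.card (Cp D.a1 D.b1 Xᶜ)) (q : Cp D.a1 D.b1 Xᶜ) : 5 ≤ (c.Tq X q).card := by
  classical
  set A : Finset (TF T) := univ.filter (fun t => scl D X t = q) with hA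
  have hmA : ∀ t, t ∈ A ↔ scl D X t = q := by intro t; simp [hA]
  have hsub : cutS D.a1 D.b1 A ⊆ X := by
    intro e he
    by_contra hx
    rw [mem_cutS, hmA, hmA] at he
    apply he
    rw [scl_eq hx (t := D.b1 e) (sub_b1 D e)]
  have hAne : A.Nonempty := by
    obtain ⟨t, ht⟩ := Quot.exists_rep q
    exact ⟨t, (hmA t).2 ht⟩
  have hAc : Aᶜ.Nonempty := by
    have h3 : ∃ q' : Cp D.a1 D.b1 Xᶜ, q' ≠ q := by
      have : Nontrivial (Cp D.a1 D.b1 Xᶜ) := Finite.one_lt_card_iff_nontrivial.1 (by omega)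
      exact exists_ne q
    obtain ⟨q', hq'⟩ := h3
    obtain ⟨t, ht⟩ := Quot.exists_rep q'
    refine ⟨t, ?_⟩
    rw [mem_compl, hmA]
    intro h4
    exact hq' (ht.symm.trans h4)
  have hne : (cutS D.a1 D.b1 A).Nonempty := card_pos.1 (D.conn1 A hAne hAc)
  have h5 : 5 ≤ (cutS D.a1 D.b1 A).card :=
    c.good _ (hsub.trans hX) hne (fun v => D.even_cut A v)
  refine h5.trans ?_
  refine Finset.card_le_card_of_injOn (fun e => if scl D X (D.a1 e) = q then D.a1 e else D.b1 e)
    ?_ ?_
  · intro e he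
    have he' : e ∈ cutS D.a1 D.b1 A := he
    have hx := hsub he'
    rw [mem_cutS, hmA, hmA] at he'
    show (if scl D X (D.a1 e) = q then D.a1 e else D.b1 e) ∈ (c.Tq X q : Set (TF T))
    rw [mem_coe, c.mem_Tq]
    by_cases h6 : scl D X (D.a1 e) = q
    · rw [if_pos h6]
      refine ⟨?_, h6⟩
      rw [c.base_eq (hX hx) (sub_a1 D e)]; exact hx
    · rw [if_neg h6]
      refine ⟨?_, by tauto⟩
      rw [c.base_eq (hX hx) (sub_b1 D e)]; exact hx
  · intro e he e' he' hee
    have hb : ∀ e ∈ cutS D.a1 D.b1 A,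
        c.base (if scl D X (D.a1 e) = q then D.a1 e else D.b1 e) = e := by
      intro e he
      by_cases h6 : scl D X (D.a1 e) = q
      · rw [if_pos h6]; exact c.base_eq (hX (hsub he)) (sub_a1 D e)
      · rw [if_neg h6]; exact c.base_eq (hX (hsub he)) (sub_b1 D e)
    have h7 := congrArg c.base hee
    simp only at h7
    rw [hb e he, hb e' he'] at h7
    exact h7

/-- a class contains at least `6 k` triangles with base in `X` if it contains `k` long sides -/
private theorem six_Tq {K : c.Q} {X : Finset (TE T)} (hX : X ⊆ c.EK K) (S : Finset c.Q)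
    (hS : ∀ L ∈ S, 6 ≤ c.tau K L ∧ c.II K L ⊆ X) (q : Cp D.a1 D.b1 Xᶜ)
    (hq : ∀ L ∈ S, ∀ t ∈ c.TA K L, scl D X t = q) : 6 * S.card ≤ (c.Tq X q).card := by
  classical
  have h1 : S.biUnion (fun L => c.TA K L) ⊆ c.Tq X q := by
    intro t ht
    obtain ⟨L, hL, htL⟩ := mem_biUnion.1 ht
    rw [c.mem_Tq]
    refine ⟨(hS L hL).2 ?_, hq L hL t htL⟩
    have h2 := c.mem_TA.1 htL
    rw [c.mem_II]
    refine ⟨h2.1, ?_⟩
    rcases (D.two (c.base t) t).1 (c.base_sub t) with h3 | h3
    · left; rw [← h3]; exact h2.2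
    · right; rw [← h3]; exact h2.2
  have h2 : (S.biUnion (fun L => c.TA K L)).card = ∑ L ∈ S, c.tau K L := by
    rw [card_biUnion]
    · rfl
    · intro L _ L' _ hne
      refine Finset.disjoint_left.2 fun t h3 h4 => ?_
      exact hne ((c.mem_TA.1 h3).2.symm.trans (c.mem_TA.1 h4).2)
  calc 6 * S.card = ∑ _L ∈ S, 6 := by rw [Finset.sum_const, smul_eq_mul, mul_comm]
    _ ≤ ∑ L ∈ S, c.tau K L := Finset.sum_le_sum fun L hL => (hS L hL).1
    _ = (S.biUnion (fun L => c.TA K L)).card := h2.symm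
    _ ≤ _ := card_le_card h1

private theorem spr_main {K : c.Q} {X : Finset (TE T)} (hX : X ⊆ c.EK K)
    (h2 : 2 ≤ Nat.card (Cp D.a1 D.b1 Xᶜ)) (S : Finset c.Q)
    (hS : ∀ L ∈ S, c.Nb K L ∧ 6 ≤ c.tau K L ∧ c.II K L ⊆ X) :
    5 * Nat.card (Cp D.a1 D.b1 Xᶜ) + S.card ≤ 2 * X.card := by
  classical
  have hXM : X ⊆ Mo D c.x := fun e he => (c.mem_EK.1 (hX he)).1
  let _ : Fintype (Cp D.a1 D.b1 Xᶜ) := Fintype.ofFinite _
  -- the class of a long side
  have hcl : ∀ L ∈ S, ∃ q : Cp D.a1 D.b1 Xᶜ, ∀ t ∈ c.TA K L, scl D X t = q := by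
    intro L hL
    have h3 : 0 < (c.TA K L).card := by
      have := (hS L hL).2.1
      unfold tau at this
      omega
    obtain ⟨t0, h0⟩ := card_pos.1 h3
    exact ⟨scl D X t0, fun t ht => c.scl_TA (hS L hL).1 hX h0 ht⟩
  have hcl' : ∀ L, ∃ q : Cp D.a1 D.b1 Xᶜ, L ∈ S → ∀ t ∈ c.TA K L, scl D X t = q := by
    intro L
    by_cases hL : L ∈ S
    · obtain ⟨q, hq⟩ := hcl L hL
      exact ⟨q, fun _ => hq⟩
    · obtain ⟨q⟩ : Nonempty (Cp D.a1 D.b1 Xᶜ) := by
        have : 0 < Nat.card (Cp D.a1 D.b1 Xᶜ) := by omega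
        exact (Nat.card_pos_iff.1 this).1
      exact ⟨q, fun h => absurd h hL⟩
  choose f hf using hcl'
  have h3 : ∀ q : Cp D.a1 D.b1 Xᶜ, 5 + (S.filter (fun L => f L = q)).card ≤ (c.Tq X q).card := by
    intro q
    have h4 := c.five_Tq hXM h2 q
    have h5 := c.six_Tq hX (S.filter (fun L => f L = q))
      (fun L hL => (hS L (mem_filter.1 hL).1).2) q
      (fun L hL t ht => by
        rw [hf L (mem_filter.1 hL).1 t ht]
        exact (mem_filter.1 hL).2)
    omega
  have h4 : ∑ q : Cp D.a1 D.b1 Xᶜ, (S.filter (fun L => f L = q)).card = S.card := by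
    rw [Finset.card_eq_sum_card_fiberwise (f := f) (s := S)
      (t := (univ : Finset (Cp D.a1 D.b1 Xᶜ))) (fun t _ => by simp)]
  have h5 : ∑ q : Cp D.a1 D.b1 Xᶜ, (5 + (S.filter (fun L => f L = q)).card) ≤
      ∑ q : Cp D.a1 D.b1 Xᶜ, (c.Tq X q).card := Finset.sum_le_sum fun q _ => h3 q
  rw [Finset.sum_add_distrib, h4, Finset.sum_const, smul_eq_mul, card_univ,
    ← Nat.card_eq_fintype_card] at h5
  have h6 := c.sum_Tq X
  omega

/-- Let `X` be the edges of `K` inside `P` and `e = |X|`.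
For a class `q : Cp D.a1 D.b1 Xᶜ` of triangles let `A q` be the set of its triangles and
`inc q = Σ_{e ∈ X} ([a1 e ∈ A q] + [b1 e ∈ A q])`.
(1) `Σ_q inc q = 2 e`.
(2) There are `bet X + 1 ≥ e - |P| + 2 ≥ 2` classes (`quot_dual`, `rank_le` of `Dim.lean`).
(3) `5 ≤ |cutS (A q)| ≤ inc q` for every class, as in the proof of `sparse`.
(4) Let `L ∈ LS K` with `II K L ⊆ X`. All triangles with base in `K` and apex in `L` are in the same
class: let `t0` be one of them (`tau K L ≥ 6`), `q` its class, and `Y` the set of the edges `e` of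
`DD K L` with `a1 e ∈ A q`. An edge of `DD K L` is not in `X`, so both of its triangles are in the
same class, and every triangle contains no or two edges of `Y` (none if it is not in `A q`; all its
edges in `DD K L` if it is in `A q`). By `strip_all` `Y = DD K L`. Call this class `q_L`.
(5) For a class `q` let `k` be the number of the `L` as in (4) with `q_L = q`. `inc q` is at least the
sum of `tau K L` over these `L` (the pair of the base of `t`, and `t`, for the triangles `t` with base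
in `K` and apex in `L`; the base is in `II K L ⊆ X`), so `inc q ≥ 6 k`; with (3)
`inc q ≥ 5 + k`. Sum over all classes:
`2 e ≥ 5 (e - |P| + 2) + |{L ∈ LS K : II K L ⊆ X}|`. -/
theorem sparse_R (K : c.Q) (P : Finset V) (hP : P ⊆ c.VK K) (hne : P.Nonempty)
    (hc : P.card ≤ Pool.Agent.helper9.IFP.ein D.a0 D.b0 (c.EK K) P) :
    3 * Pool.Agent.helper9.IFP.ein D.a0 D.b0 (c.EK K) P + 10 + ((c.LS K).filter
      (fun L => c.II K L ⊆ Pool.Agent.helper9.IFP.inE D.a0 D.b0 (c.EK K) P)).card ≤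
      5 * P.card := by
  have hX : Pool.Agent.helper9.IFP.inE D.a0 D.b0 (c.EK K) P ⊆ c.EK K := filter_subset _ _
  have he : Pool.Agent.helper9.IFP.ein D.a0 D.b0 (c.EK K) P =
      (Pool.Agent.helper9.IFP.inE D.a0 D.b0 (c.EK K) P).card := rfl
  rw [he] at hc ⊢
  generalize hXd : Pool.Agent.helper9.IFP.inE D.a0 D.b0 (c.EK K) P = X at hX hc ⊢
  have hPpos := card_pos.2 hne
  have hXne : X.Nonempty := card_pos.1 (by omega)
  have h1 := rank_le D.a0 D.b0 hXne (U := P) (by
    intro e he
    rw [← hXd, Pool.Agent.helper9.IFP.mem_inE] at he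
    exact he.2)
  have h2 := quot_dual D X
  have h3 := c.spr_main hX (by omega) ((c.LS K).filter (fun L => c.II K L ⊆ X)) (by
    intro L hL
    have h4 := mem_filter.1 hL
    have h5 : c.Nb K L ∧ 6 ≤ c.tau K L := by
      have := h4.1
      unfold LS at this
      exact (mem_filter.1 this).2
    exact ⟨h5.1, h5.2, h4.2⟩)
  omega

end Cfg

end Pool.Agent.helper54.AB
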