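import Mathlib
import Pool.Agent.helper9.AB2.SpR
import Pool.Agent.helper9.AB2.Ref
import Pool.Agent.helper54.AB.Deg
import Pool.Agent.helper54.AB.MainM

/-! [AB2-4] Small hitting sets of a component. -/

set_option linter.unusedSectionVars false

namespace Pool.Agent.helper54.AB

open Finset Pool.Agent.helper60.ECD Pool.Agent.helper54.LFP

variable {V : Type} [Fintype V] [DecidableEq V] {T : SphereTri V} {D : Ends T} (c : Cfg D)

namespace Cfg

/-- Proof: let `A ⊆ VK K` be nonempty with nonempty complement in `VK K` and suppose no edge of `EK K`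
joins `A` to the rest. Then the function `v ∈ A` is constant along the edges of `Mo D c.x` (an edge
not in `EK K` has no end in `VK K`), so it is constant on `VK K` (`cmp_lift`), contradiction. -/
theorem conn_VK (K : c.Q) : Pool.Agent.helper9.IFP.Conn D.a0 D.b0 (c.EK K) (c.VK K) := by
  refine ⟨?_, ?_⟩
  · obtain ⟨v, hv⟩ := c.cmp_surj K
    exact ⟨v, c.mem_VK.2 hv⟩
  · intro A hA hne hne'
    by_contra hcon
    push Not at hcon
    obtain ⟨u, hu⟩ := hne
    obtain ⟨w, hw⟩ := hne'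
    rw [mem_sdiff] at hw
    have hf : ∀ e ∈ Mo D c.x, (D.a0 e ∈ A) = (D.b0 e ∈ A) := by
      intro e he
      have hcmp := c.cmp_edge he
      apply propext
      constructor
      · intro ha
        have hak := c.mem_VK.1 (hA ha)
        have heK : e ∈ c.EK K := c.mem_EK.2 ⟨he, hak⟩
        by_contra hb
        exact (hcon e heK).1 ha (mem_sdiff.2 ⟨c.mem_VK.2 (hcmp.symm.trans hak), hb⟩)
      · intro hb
        have hbk := c.mem_VK.1 (hA hb)
        have heK : e ∈ c.EK K := c.mem_EK.2 ⟨he, hcmp.trans hbk⟩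
        by_contra ha
        exact (hcon e heK).2 hb (mem_sdiff.2 ⟨c.mem_VK.2 (hcmp.trans hbk), ha⟩)
    have h1 := c.cmp_lift (fun v => v ∈ A) hf
      ((c.mem_VK.1 (hA hu)).trans (c.mem_VK.1 hw.1).symm)
    exact hw.2 (h1 ▸ hu)

/-- Proof: `fvs_refined` for `C = VK K`, `M = EK K`, `R = LS K`, `I = II K` (`II_conn`, `II_two`,
`II_nonempty`, `sparse_R`), `hit_of_fst`, and `deg_eq`: `|VK K| = |EK K| + 2 - deg K`. -/
theorem small_hit_R (K : c.Q) (h : 2 ≤ c.deg K) : ∃ S ⊆ c.VK K, Hit D.a0 D.b0 (c.EK K) S ∧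
    14 * S.card ≤ 7 * c.deg K + (2 * (c.EK K).card - 5 * c.deg K) ∧
    10 * S.card + (c.LS K).card ≤ 2 * (c.EK K).card := by
  classical
  have hEV : ∀ e ∈ c.EK K, D.a0 e ∈ c.VK K ∧ D.b0 e ∈ c.VK K := by
    intro e he
    obtain ⟨h1, h2⟩ := c.mem_EK.1 he
    exact ⟨c.mem_VK.2 h2, c.mem_VK.2 ((c.cmp_edge h1).symm.trans h2)⟩
  have hLS : ∀ L ∈ c.LS K, c.Nb K L ∧ 6 ≤ c.tau K L := by
    intro L hL
    unfold LS at hL
    exact (mem_filter.1 hL).2
  obtain ⟨Z, hZC, hF, h1, h2⟩ := Pool.Agent.helper9.AB2.fvs_refined D.a0 D.b0 (c.EK K)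
    (fun e _ => D.ne0 e) (c.VK K) (c.conn_VK K) (c.LS K) (c.II K)
    (by
      intro L hL
      refine ⟨c.II_nonempty (by have := (hLS L hL).2; omega), ?_⟩
      intro e he
      have h3 := (c.mem_II.1 he).1
      exact Pool.Agent.helper9.IFP.mem_inE.2 ⟨h3, hEV e h3⟩)
    (by
      intro L hL P hP
      exact c.II_conn (hLS L hL).1 P hP)
    (by
      intro e
      refine le_trans (card_le_card ?_) (c.II_two K e)
      intro L hL
      rw [mem_filter] at hL
      exact mem_filter.2 ⟨mem_univ _, hL.2⟩)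
    (by
      intro P hP hPne hPc
      have h3 := c.sparse_R K P hP hPne hPc
      convert h3 using 4)
  refine ⟨Z, hZC, Pool.Agent.helper9.AB2.hit_of_fst D.a0 D.b0 D.ne0 (c.EK K) (c.VK K) Z hEV hF,
    ?_, ?_⟩
  · have h3 : Pool.Agent.helper9.IFP.ein D.a0 D.b0 (c.EK K) (c.VK K) ≤ (c.EK K).card :=
      card_le_card (filter_subset _ _)
    have h4 := c.deg_eq K
    have h5 := c.exc_nonneg h
    omega
  · have h3 : Pool.Agent.helper9.IFP.ein D.a0 D.b0 (c.EK K) (c.VK K) ≤ (c.EK K).card :=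
      card_le_card (filter_subset _ _)
    omega

end Cfg

end Pool.Agent.helper54.AB
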