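import Mathlib
import Pool.Agent.helper54.AB.Pair2
import Pool.Agent.helper54.AB.Deg
import Pool.Agent.helper54.AB.Count
import Pool.Agent.helper54.AB.Leaf

/-! [AB2-5] The gain from a leaf of the tree of components. -/

set_option linter.unusedSectionVars false

namespace Pool.Agent.helper54.AB

open Finset Pool.Agent.helper60.ECD Pool.Agent.helper54.LFP

variable {V : Type} [Fintype V] [DecidableEq V] {T : SphereTri V} {D : Ends T} (c : Cfg D)

namespace Cfg

private lemma lr_NL_sub (L : c.Q) (v : V) : c.NL L v ⊆ c.VK L := by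
  intro u hu
  rw [mem_VK]
  exact (c.mem_NL.1 hu).1

private lemma lr_nb {K L : c.Q} {v u : V} (hv : c.cmp v = K) (hne : L ≠ K)
    (hu : u ∈ c.NL L v) : c.Nb K L := by
  obtain ⟨h1, e, he⟩ := c.mem_NL.1 hu
  subst h1
  subst hv
  exact c.Nb_of_edge he (Ne.symm hne)

private lemma lr_r_tree {R : c.Q} (h1 : c.deg R = 1) (h0 : (c.EK R).card = 0) (v : V) :
    (c.NL R v).card ≤ 1 := by
  have h := c.deg_eq R
  have hle := card_le_card (c.lr_NL_sub R v)
  omega

/-- the sum of `tau K` over the neighbours -/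
private lemma lr_tau_sum (K : c.Q) :
    ∑ L ∈ univ.filter (fun L => c.Nb K L), c.tau K L = 2 * (c.EK K).card := by
  rw [← c.tau_sum K, Finset.sum_filter]
  refine Finset.sum_congr rfl fun L _ => ?_
  by_cases h : c.Nb K L
  · rw [if_pos h]
  · rw [if_neg h, c.tau_nb h]

/-- Let `K` be a nontree component with exactly one nontree neighbour `L`, whose tree neighbours have
no edges, and `tau L K < 3 deg K`. Every hitting set `SS` leaves a vertex of `K` which can be moved.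

Proof. `L` is the only nontree neighbour (`c.s K = 1`), the other `deg K - 1` neighbours `R` are tree
components with one vertex (`deg_eq`) and `tau K R ≥ 5` (`tau_five`). So
`tau K L ≤ 2 |EK K| - 5 (deg K - 1)` (`tau_sum`, `tau_nb`), and `|VK K| = |EK K| + 2 - deg K`
(`deg_eq`), so `|DD K L| - 1 = tau K L + tau L K - 1 < 2 |VK K|` (`DD_card`).
The nonempty even set `AS L K ⊆ Mo` (`AS_five` for `L`, `AS_ev`) contains an edge `e` with an end
`z ∈ SS`; one of the triangles of `e` has its apex `w0` in `K`, and `w0` is adjacent to `z` (as at the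
end of the proof of `leaf_gain` in `Leaf.lean`). So
`Σ_{v ∈ VK K} |NL L v \ SS| ≤ Σ_{v ∈ VK K} r L v - 1 = |DD K L| - 1 < 2 |VK K|` (`sum_r`), and some
`w ∈ VK K` has `|NL L w \ SS| ≤ 1`. For a tree neighbour `R`: `|NL R w| ≤ |VK R| = 1`. For other
components `NL R w = ∅` (`Nb_of_edge`). -/
theorem leaf_gain_R {K : c.Q} (h2 : 2 ≤ c.deg K) (hs : c.s K = 1)
    (ht : ∀ R, c.Nb K R → c.deg R = 1 → (c.EK R).card = 0)
    (hl : ∀ L, c.Nb K L → 2 ≤ c.deg L → c.tau L K < 3 * c.deg K)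
    {SS : Finset V} (hS : Hit D.a0 D.b0 (Mo D c.x) SS) : ∃ w, c.cmp w = K ∧ c.Ok SS w := by
  classical
  -- the nontree neighbour
  obtain ⟨L, hL⟩ : ∃ L, univ.filter (fun L => c.Nb K L ∧ 2 ≤ c.deg L) = {L} := by
    rw [← card_eq_one]
    exact hs
  have hLmem : ∀ M, (c.Nb K M ∧ 2 ≤ c.deg M) ↔ M = L := by
    intro M
    have h : M ∈ univ.filter (fun L => c.Nb K L ∧ 2 ≤ c.deg L) ↔ M ∈ ({L} : Finset c.Q) := by
      rw [hL]
    rw [mem_filter, mem_singleton] at h
    exact ⟨fun hh => h.1 ⟨mem_univ _, hh⟩, fun hh => (h.2 hh).2⟩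
  obtain ⟨hKL, hL2⟩ := (hLmem L).2 rfl
  have htree : ∀ M, c.Nb K M → M ≠ L → c.deg M = 1 := by
    intro M hM hne
    have h1 := c.deg_pos M
    by_contra hh
    exact hne ((hLmem M).1 ⟨hM, by omega⟩)
  have hdeg := c.deg_eq K
  have hKLne : K ≠ L := hKL.1
  -- the bound for `tau K L`
  have htau : c.tau K L + 5 * (c.deg K - 1) ≤ 2 * (c.EK K).card := by
    have h1 := c.lr_tau_sum K
    have hLN : L ∈ univ.filter (fun L => c.Nb K L) := mem_filter.2 ⟨mem_univ _, hKL⟩
    have hNc : (univ.filter (fun L => c.Nb K L)).card = c.deg K := rfl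
    rw [← add_sum_erase _ _ hLN] at h1
    have h3 : ∑ M ∈ (univ.filter (fun L => c.Nb K L)).erase L, 5 ≤
        ∑ M ∈ (univ.filter (fun L => c.Nb K L)).erase L, c.tau K M :=
      sum_le_sum fun M hM => c.tau_five h2 (mem_filter.1 (mem_erase.1 hM).2).2
    rw [sum_const, card_erase_of_mem hLN, hNc, smul_eq_mul] at h3
    omega
  -- the edge with an end in `SS`
  have hLK : c.Nb L K := c.Nb_symm hKL
  have hASL := c.AS_five hL2 hLK
  have hsubM : ∀ M, c.EK M ⊆ Mo D c.x := fun M => filter_subset _ _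
  have hASsub : c.AS L K ⊆ Mo D c.x := (filter_subset _ _).trans (hsubM L)
  obtain ⟨e, he, hz⟩ := hS _ hASsub hASL.1 (c.AS_ev hLK)
  obtain ⟨heL, hap⟩ := c.mem_AS.1 he
  obtain ⟨t, htt, htK⟩ : ∃ t : TF T, e.1 ⊆ t.1 ∧ c.cmp (c.apex t) = K := by
    by_cases h1 : c.cmp (c.apex (D.a1 e)) = K
    · exact ⟨D.a1 e, sub_a1 D e, h1⟩
    · by_cases h3 : c.cmp (c.apex (D.b1 e)) = K
      · exact ⟨D.b1 e, sub_b1 D e, h3⟩
      · exact absurd (iff_of_false h1 h3) hap
  have hbase : c.base t = e := c.base_eq (hsubM L heL) htt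
  obtain ⟨z, hzS, hzN⟩ : ∃ z ∈ SS, z ∈ c.NL L (c.apex t) := by
    obtain ⟨⟨e1, he1, -⟩, ⟨e2, he2, -⟩⟩ := c.apex_edges t
    rw [hbase] at he1 he2
    rcases hz with hz | hz
    · exact ⟨D.a0 e, hz, c.mem_NL.2
        ⟨c.mem_EK_iff.1 heL _ ((mem_edge D).2 (Or.inl rfl)), e1, he1⟩⟩
    · exact ⟨D.b0 e, hz, c.mem_NL.2
        ⟨c.mem_EK_iff.1 heL _ ((mem_edge D).2 (Or.inr rfl)), e2, he2⟩⟩
  -- the count
  have hlt : ∑ v ∈ c.VK K, (c.NL L v \ SS).card < 2 * (c.VK K).card := by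
    have h1 : ∑ v ∈ c.VK K, (c.NL L v \ SS).card < ∑ v ∈ c.VK K, c.r L v := by
      refine sum_lt_sum (fun v _ => card_le_card sdiff_subset)
        ⟨c.apex t, c.mem_VK.2 htK, ?_⟩
      exact card_lt_card ⟨sdiff_subset, fun h => (mem_sdiff.1 (h hzN)).2 hzS⟩
    rw [c.sum_r hKLne, c.DD_card hKLne] at h1
    have h3 := hl L hKL hL2
    omega
  obtain ⟨w, hw, hw1⟩ : ∃ w ∈ c.VK K, (c.NL L w \ SS).card ≤ 1 := by
    by_contra hh
    push Not at hh
    have h1 : ∑ v ∈ c.VK K, 2 ≤ ∑ v ∈ c.VK K, (c.NL L v \ SS).card :=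
      sum_le_sum fun v hv => hh v hv
    rw [sum_const, smul_eq_mul] at h1
    omega
  have hwK := c.mem_VK.1 hw
  refine ⟨w, hwK, fun M hM => ?_⟩
  rw [hwK] at hM
  by_cases hML : M = L
  · rw [hML]
    exact hw1
  · by_cases hMN : c.Nb K M
    · have hM1 := htree M hMN hML
      exact (card_le_card sdiff_subset).trans (c.lr_r_tree hM1 (ht M hMN hM1) _)
    · have h0 : c.NL M w = ∅ := by
        rw [eq_empty_iff_forall_notMem]
        intro u hu
        exact hMN (c.lr_nb hwK hM hu)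
      rw [h0, empty_sdiff, card_empty]
      exact Nat.zero_le _

end Cfg

end Pool.Agent.helper54.AB
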