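import Mathlib
import Pool.Agent.helper54.AB.MainM
import Pool.Agent.helper54.AB.Leaf
import Pool.Agent.helper54.AB.Asm
import Pool.Agent.helper54.AB.Flip
import Pool.Agent.helper54.AB.Arith2
import Pool.Agent.helper54.AB.Final
import Pool.Agent.helper54.LFP.Final
import Pool.Agent.helper9.AB2.HitR
import Pool.Agent.helper9.AB2.LeafR
import Pool.Agent.helper9.AB2.ArithR2

/-! [AB2-F] Planar graphs have induced forests on at least `107 n / 267` vertices. -/

set_option linter.unusedSectionVars false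

namespace Pool.Agent.helper54.AB

open Finset Pool.Agent.helper60.ECD Pool.Agent.helper54.LFP

variable {V : Type} [Fintype V] [DecidableEq V] {T : SphereTri V} {D : Ends T} (c : Cfg D)

namespace Cfg

theorem arr_lg (hc : c.Flip) (K : c.Q) : (c.arr hc).lg K = c.LS K := by
  ext L
  unfold Arr.lg LS
  rw [mem_filter, mem_filter, c.mem_arr_nb hc]
  simp only [mem_univ, true_and]
  rfl

/-- a small hitting set in every component -/
theorem small_hit_R' (hc : c.Flip) (K : c.Q) : ∃ S : Finset V, Hit D.a0 D.b0 (c.EK K) S ∧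
    (2 ≤ c.deg K → 70 * S.card + (c.arr hc).df K ≤ 14 * (c.EK K).card) ∧
    (¬ 2 ≤ c.deg K → S = ∅) := by
  by_cases h : 2 ≤ c.deg K
  · obtain ⟨S, -, hS, h14, h10⟩ := c.small_hit_R K h
    refine ⟨S, hS, fun _ => ?_, fun h' => absurd h h'⟩
    have h1 := c.exc_nonneg h
    have h2 : (c.arr hc).ex K = 2 * (c.EK K).card - 5 * c.deg K := rfl
    have h3 : 70 * S.card + 2 * (c.arr hc).ex K ≤ 14 * (c.EK K).card := by
      rw [h2]
      omega
    have h4 : 70 * S.card + 7 * ((c.arr hc).lg K).card ≤ 14 * (c.EK K).card := by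
      rw [c.arr_lg hc]
      omega
    have h5 : 70 * S.card + (if (c.arr hc).ex K = 0 then 0 else 14) ≤ 14 * (c.EK K).card := by
      split_ifs with h6
      · omega
      · omega
    unfold Arr.df
    rcases max_choice (2 * (c.arr hc).ex K) (max (7 * ((c.arr hc).lg K).card)
      (if (c.arr hc).ex K = 0 then 0 else 14)) with h6 | h6
    · rw [h6]
      exact h3
    · rw [h6]
      rcases max_choice (7 * ((c.arr hc).lg K).card)
        (if (c.arr hc).ex K = 0 then 0 else 14) with h7 | h7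
      · rw [h7]
        exact h4
      · rw [h7]
        exact h5
  · refine ⟨∅, c.hit_tree ?_, fun h' => absurd h' h, fun _ => rfl⟩
    have := c.deg_pos K
    omega

theorem count_SR (hc : c.Flip) (S : c.Q → Finset V)
    (h1 : ∀ K, 2 ≤ c.deg K → 70 * (S K).card + (c.arr hc).df K ≤ 14 * (c.EK K).card)
    (h2 : ∀ K, ¬ 2 ≤ c.deg K → S K = ∅) :
    70 * (univ.biUnion S).card + (c.arr hc).Df ≤ 14 * ∑ K ∈ (c.arr hc).NT, (c.arr hc).m K := by
  have h3 : (univ.biUnion S).card ≤ ∑ K, (S K).card := card_biUnion_le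
  have h4 : ∑ K, (S K).card = ∑ K ∈ (c.arr hc).NT, (S K).card := by
    symm
    refine sum_subset (subset_univ _) fun K _ hK => ?_
    rw [h2 K, card_empty]
    intro h
    exact hK (mem_filter.2 ⟨mem_univ _, h⟩)
  have h5 : 70 * ∑ K ∈ (c.arr hc).NT, (S K).card + (c.arr hc).Df ≤
      14 * ∑ K ∈ (c.arr hc).NT, (c.arr hc).m K := by
    unfold Arr.Df
    rw [mul_sum, mul_sum, ← sum_add_distrib]
    refine sum_le_sum fun K hK => ?_
    exact h1 K (mem_filter.1 hK).2
  omega

/-- assembly with the counting of the hitting sets -/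
theorem finish_R (hc : c.Flip) (S : c.Q → Finset V) (W : Finset V)
    (h0 : ∀ K, Hit D.a0 D.b0 (c.EK K) (S K))
    (h1 : ∀ K, 2 ≤ c.deg K → 70 * (S K).card + (c.arr hc).df K ≤ 14 * (c.EK K).card)
    (h2 : ∀ K, ¬ 2 ≤ c.deg K → S K = ∅)
    (hW : ∀ w ∈ W, ∀ w' ∈ W, c.cmp w = c.cmp w' → w = w')
    (hok : ∀ w ∈ W, c.Ok (univ.biUnion S) w) :
    ∃ F1 F2 : Finset V, (T.graph.induce (F1 : Set V)).IsAcyclic ∧
      (T.graph.induce (F2 : Set V)).IsAcyclic ∧
      56 * Fintype.card V + (c.arr hc).Df + 14 * (c.arr hc).Y + 28 + 70 * W.card ≤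
        70 * (F1.card + F2.card) := by
  obtain ⟨F1, F2, hF1, hF2, hcard⟩ := c.assembly (c.hit_union S h0) hW hok
  refine ⟨F1, F2, hF1, hF2, ?_⟩
  have h3 := (c.arr hc).final_R (c.count_SR hc S h1 h2)
  have h4 : (c.arr hc).n = Fintype.card V := rfl
  rw [h4] at h3
  omega

/-- the leaves -/
theorem case_leaf_R (hc : c.Flip) :
    ∃ F1 F2 : Finset V, (T.graph.induce (F1 : Set V)).IsAcyclic ∧
      (T.graph.induce (F2 : Set V)).IsAcyclic ∧
      56 * Fintype.card V + (c.arr hc).Df + 14 * (c.arr hc).Y + 28 + 70 * (c.arr hc).LgR.card ≤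
        70 * (F1.card + F2.card) := by
  choose S h0 h1 h2 using c.small_hit_R' hc
  have hS := c.hit_union S h0
  have hw : ∀ K : c.Q, ∃ w, K ∈ (c.arr hc).LgR → c.cmp w = K ∧ c.Ok (univ.biUnion S) w := by
    intro K
    by_cases hK : K ∈ (c.arr hc).LgR
    · have hK1 := mem_filter.1 hK
      have hK2 := mem_filter.1 hK1.1
      obtain ⟨w, hw1, hw2⟩ := c.leaf_gain_R (K := K) (mem_filter.1 hK2.1).2
        (by rw [← c.arr_s hc]; exact hK2.2)
        (fun R hR hR1 => hK1.2.1 R ((c.mem_arr_nb hc).2 hR) hR1)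
        (fun L hL hL2 => hK1.2.2 L ((c.mem_arr_nb hc).2 hL) hL2) hS
      exact ⟨w, fun _ => ⟨hw1, hw2⟩⟩
    · obtain ⟨w, -⟩ := c.cmp_surj K
      exact ⟨w, fun h => absurd h hK⟩
  choose w hw using hw
  obtain ⟨F1, F2, hF1, hF2, hcard⟩ := c.finish_R hc S ((c.arr hc).LgR.image w) h0 h1 h2
    (by
      intro u hu v hv huv
      rw [mem_image] at hu hv
      obtain ⟨K, hK, rfl⟩ := hu
      obtain ⟨L, hL, rfl⟩ := hv
      rw [(hw K hK).1, (hw L hL).1] at huv
      rw [huv])
    (by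
      intro u hu
      rw [mem_image] at hu
      obtain ⟨K, hK, rfl⟩ := hu
      exact (hw K hK).2)
  refine ⟨F1, F2, hF1, hF2, ?_⟩
  have hinj : ((c.arr hc).LgR.image w).card = (c.arr hc).LgR.card := by
    refine card_image_of_injOn fun K hK L hL hKL => ?_
    rw [← (hw K hK).1, ← (hw L hL).1]
    exact congrArg c.cmp hKL
  rw [hinj] at hcard
  exact hcard

/-- the hosts -/
theorem case_host_R (hc : c.Flip) (G3 : Finset c.Q)
    (hG : G3 ⊆ (c.arr hc).G2)
    (hG' : ∀ L ∈ G3, ∀ L' ∈ G3, ∀ K ∈ (c.arr hc).ntn L, K ∈ (c.arr hc).ntn L' → L = L') :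
    ∃ F1 F2 : Finset V, (T.graph.induce (F1 : Set V)).IsAcyclic ∧
      (T.graph.induce (F2 : Set V)).IsAcyclic ∧
      56 * Fintype.card V + (c.arr hc).Df + 14 * (c.arr hc).Y + 28 + 70 * G3.card ≤
        70 * (F1.card + F2.card) := by
  -- the vertices `u L`
  have hu : ∀ L : c.Q, ∃ u, L ∈ G3 → c.cmp u = L ∧
      (∀ K, c.Nb L K → 2 ≤ c.deg K → c.r K u ≤ 2) ∧
      ∀ R, c.Nb L R → c.deg R = 1 → c.r R u ≤ 1 := by
    intro L
    by_cases hL : L ∈ G3
    · have hL' := mem_filter.1 (hG hL)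
      obtain ⟨u, hu⟩ := c.host_vertex (L := L) (mem_filter.1 hL'.1).2
        ((c.arr_fine hc L).1 hL'.2.1) (by rw [← c.arr_s hc]; exact hL'.2.2.1)
      exact ⟨u, fun _ => hu⟩
    · obtain ⟨u, -⟩ := c.cmp_surj L
      exact ⟨u, fun h => absurd h hL⟩
  choose u hu using hu
  -- the hitting sets
  have hS : ∀ K : c.Q, ∃ S : Finset V, Hit D.a0 D.b0 (c.EK K) S ∧
      (2 ≤ c.deg K → 70 * S.card + (c.arr hc).df K ≤ 14 * (c.EK K).card) ∧
      (¬ 2 ≤ c.deg K → S = ∅) ∧
      ∀ L ∈ G3, c.Nb L K → 2 ≤ c.deg K → (c.NL K (u L)).Nonempty → (c.NL K (u L) ∩ S).Nonempty := by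
    intro K
    by_cases hK : ∃ L ∈ G3, c.Nb L K ∧ 2 ≤ c.deg K ∧ (c.NL K (u L)).Nonempty
    · obtain ⟨L, hL, hLK, h2, z, hz⟩ := hK
      have hntn : ∀ L', c.Nb L' K → K ∈ (c.arr hc).ntn L' := fun L' h =>
        mem_filter.2 ⟨(c.mem_arr_nb hc).2 h, h2⟩
      have hexc := ((mem_filter.1 (hG hL)).2.2.2 K (hntn L hLK)).2
      have hexc' : 2 * (c.EK K).card = 5 * c.deg K := hexc
      have hzK : c.cmp z = K := (c.mem_NL.1 hz).1
      obtain ⟨S, -, hzS, hS, h5⟩ := hit_prescribed D.ne0 (sparse c) (c.EK_sub K) (U := c.VK K)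
        (fun e he => c.EK_ends he) (by omega) (c.mem_VK.2 hzK) (c.exists_edge hzK h2)
      have hex : (c.arr hc).ex K = 0 := by
        have h6 : (c.arr hc).ex K = 2 * (c.EK K).card - 5 * c.deg K := rfl
        omega
      have hdf : (c.arr hc).df K = 0 := by
        unfold Arr.df
        rw [(c.arr hc).lg_empty h2 hex, hex]
        simp
      refine ⟨S, hS, fun _ => by omega, fun h => absurd h2 h, ?_⟩
      intro L' hL' hLK' _ _
      have : L = L' := hG' L hL L' hL' K (hntn L hLK) (hntn L' hLK')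
      subst this
      exact ⟨z, mem_inter.2 ⟨hz, hzS⟩⟩
    · obtain ⟨S, hS, h1, h2⟩ := c.small_hit_R' hc K
      exact ⟨S, hS, h1, h2, fun L hL h3 h4 h5 => absurd ⟨L, hL, h3, h4, h5⟩ hK⟩
  choose S h0 h1 h2 h3 using hS
  obtain ⟨F1, F2, hF1, hF2, hcard⟩ := c.finish_R hc S (G3.image u) h0 h1 h2
    (by
      intro p hp q hq hpq
      rw [mem_image] at hp hq
      obtain ⟨K, hK, rfl⟩ := hp
      obtain ⟨L, hL, rfl⟩ := hq
      rw [(hu K hK).1, (hu L hL).1] at hpq
      rw [hpq])
    (by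
      intro p hp
      rw [mem_image] at hp
      obtain ⟨L, hL, rfl⟩ := hp
      intro K hKL
      rw [(hu L hL).1] at hKL
      by_cases hne : (c.NL K (u L)).Nonempty
      · have hnb : c.Nb L K := by
          obtain ⟨z, hz⟩ := hne
          obtain ⟨hz1, e, he⟩ := c.mem_NL.1 hz
          have := c.Nb_of_edge he (by rw [(hu L hL).1, hz1]; exact hKL.symm)
          rw [(hu L hL).1, hz1] at this
          exact this
        by_cases hd : 2 ≤ c.deg K
        · have h4 := h3 K L hL hnb hd hne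
          have h5 : (c.NL K (u L)).card ≤ 2 := (hu L hL).2.1 K hnb hd
          obtain ⟨z, hz⟩ := h4
          rw [mem_inter] at hz
          have hz' : z ∈ c.NL K (u L) ∩ univ.biUnion S :=
            mem_inter.2 ⟨hz.1, mem_biUnion.2 ⟨K, mem_univ _, hz.2⟩⟩
          have h6 := card_sdiff_add_card_inter (c.NL K (u L)) (univ.biUnion S)
          have h7 := card_pos.2 ⟨z, hz'⟩
          omega
        · have h5 : (c.NL K (u L)).card ≤ 1 := (hu L hL).2.2 K hnb (by
            have := c.deg_pos K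
            omega)
          exact (card_le_card sdiff_subset).trans h5
      · rw [not_nonempty_iff_eq_empty] at hne
        rw [hne]
        simp)
  refine ⟨F1, F2, hF1, hF2, ?_⟩
  have hinj : (G3.image u).card = G3.card := by
    refine card_image_of_injOn fun K hK L hL hKL => ?_
    rw [← (hu K hK).1, ← (hu L hL).1]
    exact congrArg c.cmp hKL
  rw [hinj] at hcard
  exact hcard

end Cfg

/-- the main theorem for triangulated spheres -/
theorem tri_forests_R (T : SphereTri V) :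
    ∃ F : Finset V, (T.graph.induce (F : Set V)).IsAcyclic ∧
      107 * Fintype.card V ≤ 267 * F.card := by
  obtain ⟨D⟩ := exists_ends T
  obtain ⟨c, hc⟩ := exists_flip D
  suffices h : ∃ F1 F2 : Finset V, (T.graph.induce (F1 : Set V)).IsAcyclic ∧
      (T.graph.induce (F2 : Set V)).IsAcyclic ∧
      214 * Fintype.card V ≤ 267 * (F1.card + F2.card) by
    obtain ⟨F1, F2, h1, h2, h3⟩ := h
    rcases le_total F1.card F2.card with h | h
    · exact ⟨F2, h2, by omega⟩
    · exact ⟨F1, h1, by omega⟩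
  by_cases hN : (c.arr hc).NT.Nonempty
  · by_cases hN2 : 4 ≤ (c.arr hc).NT.card
    · obtain ⟨G3, hG1, hG2, hG3⟩ := (c.arr hc).exists_G3
      obtain ⟨F1, F2, hF1, hF2, hF⟩ := c.case_leaf_R hc
      obtain ⟨F3, F4, hF3, hF4, hF'⟩ := c.case_host_R hc G3 hG1 hG3
      have k1 := (c.arr hc).count_R hN2
      have k4 : (c.arr hc).n = Fintype.card V := rfl
      rw [k4] at k1
      by_cases h : 214 * Fintype.card V ≤ 267 * (F1.card + F2.card)
      · exact ⟨F1, F2, hF1, hF2, h⟩
      · exact ⟨F3, F4, hF3, hF4, by omega⟩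
    · obtain ⟨F1, F2, hF1, hF2, hF⟩ := c.case_leaf_R hc
      have k1 := (c.arr hc).count_R' hN (by omega)
      have k4 : (c.arr hc).n = Fintype.card V := rfl
      rw [k4] at k1
      exact ⟨F1, F2, hF1, hF2, by omega⟩
  · -- no cycles at all
    have hd : ∀ K, c.deg K = 1 := by
      intro K
      have h1 := c.deg_pos K
      by_contra h2
      exact hN ⟨K, mem_filter.2 ⟨mem_univ _, by
        rw [c.arr_dg hc]
        omega⟩⟩
    obtain ⟨F1, F2, hF1, hF2, hF⟩ := c.assembly
      (c.hit_union (fun _ => ∅) fun K => c.hit_tree (hd K)) (W := ∅) (by simp) (by simp)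
    refine ⟨F1, F2, hF1, hF2, ?_⟩
    have : (univ.biUnion (fun _ : c.Q => (∅ : Finset V))).card = 0 := by
      rw [card_eq_zero]
      ext v
      simp
    rw [this, card_empty] at hF
    omega

/-- the main theorem -/
theorem main_forest_R (G : SimpleGraph V) (hG : IsPlanar G) :
    ∃ F : Finset V, (G.induce (F : Set V)).IsAcyclic ∧ 107 * Fintype.card V ≤ 267 * F.card := by
  classical
  rcases hG with h3 | ⟨T, hT⟩
  · obtain ⟨S, -, hS⟩ := exists_subset_card_eq (s := (univ : Finset V))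
      (n := min (Fintype.card V) 2) (by rw [card_univ]; exact min_le_left _ _)
    refine ⟨S, acyclic_of_degenerate G S ?_, by omega⟩
    intro Z hZ hne
    obtain ⟨v, hv⟩ := hne
    refine ⟨v, hv, ?_⟩
    have h1 : Z.filter (fun w => G.Adj v w) ⊆ Z.erase v := by
      intro w hw
      rw [mem_filter] at hw
      exact mem_erase.2 ⟨fun h => hw.2.ne h.symm, hw.1⟩
    have h2 := card_le_card h1
    rw [card_erase_of_mem hv] at h2
    have h3 := card_le_card hZ
    omega
  · obtain ⟨F, hF, hcard⟩ := tri_forests_R T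
    refine ⟨F, ?_, hcard⟩
    have hle : G.induce (F : Set V) ≤ T.graph.induce (F : Set V) := fun u v h => hT h
    exact hF.anti hle

end Pool.Agent.helper54.AB
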